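import Pool.Agent.NNI.Crit

/-!
# Formally p-adic valuation rings of an NIP field
-/

set_option autoImplicit false

namespace Pool.Agent.NNI

open Polynomial FirstOrder FirstOrder.Language FirstOrder.Ring Pool.Agent.NIPFields

universe u

variable {L : Type u} [Field L]

/-- The norms from a quadratic extension. -/
theorem mem_NS_two {b f : L} (h : f ∈ NS 2 b) : ∃ s t : L, f = s ^ 2 - b * t ^ 2 := by
  obtain ⟨z, hz⟩ := h
  rw [Matrix.det_fin_two] at hz
  simp only [nmat, Matrix.of_apply] at hz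
  have h1 : (if (0 : Fin 2) ≤ 0 then (1 : L) else b) = 1 := by simp
  have h2 : (if (1 : Fin 2) ≤ 1 then (1 : L) else b) = 1 := by simp
  have h3 : (if (1 : Fin 2) ≤ 0 then (1 : L) else b) = b := by simp
  have h4 : (if (0 : Fin 2) ≤ 1 then (1 : L) else b) = 1 := by simp
  have h5 : (0 : Fin 2) - 1 = 1 := rfl
  rw [h1, h2, h3, h4, h5, sub_zero, sub_self, sub_zero] at hz
  exact ⟨z 0, z 1, by rw [hz]; ring⟩

/-- A uniformizer of a formally p-adic valuation ring. -/
theorem exists_uniformizer (V : ValuationSubring L) {p : ℕ} (hp0 : (p : L) ≠ 0)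
    (hp1 : V.valuation (p : L) < 1) (hfin : Finite (V ⧸ Ideal.span {(p : V)})) :
    ∃ π : L, π ≠ 0 ∧ V.valuation π < 1 ∧ (∀ c : L, V.valuation c < 1 →
      V.valuation c ≤ V.valuation π) ∧ ∃ k : ℕ, V.valuation π ^ k ≤ V.valuation (p : L) := by
  classical
  have hvp : 0 < V.valuation (p : L) := (Valuation.pos_iff _).2 hp0
  set S : Set V.ValueGroup := {γ | γ ≤ 1 ∧ V.valuation (p : L) < γ} with hS
  have hrep : ∀ γ : S, ∃ c : V, V.valuation (c : L) = γ := by
    rintro ⟨γ, hγ1, hγ2⟩
    obtain ⟨c, hc⟩ := V.valuation_surjective γ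
    exact ⟨⟨c, (V.valuation_le_one_iff c).1 (hc.trans_le hγ1)⟩, hc⟩
  choose c hc using hrep
  have hSfin : S.Finite := by
    have hinj : Function.Injective
        fun γ : S => Ideal.Quotient.mk (Ideal.span {(p : V)}) (c γ) := by
      intro γ δ h
      have h1 : c γ - c δ ∈ Ideal.span {(p : V)} := Ideal.Quotient.eq.1 h
      obtain ⟨t, ht⟩ := Ideal.mem_span_singleton'.1 h1
      have h2 : V.valuation ((c γ : L) - (c δ : L)) ≤ V.valuation (p : L) := by
        have h3 : (c γ : L) - (c δ : L) = (t : L) * (p : L) := by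
          have h4 := congrArg Subtype.val ht
          push_cast at h4
          exact h4.symm
        rw [h3, map_mul]
        exact mul_le_of_le_one_left' ((V.valuation_le_one_iff _).2 t.2)
      apply Subtype.ext
      rw [← hc γ, ← hc δ]
      by_contra hne
      rcases lt_or_gt_of_ne hne with h5 | h5
      · rw [Valuation.map_sub_eq_of_lt_right _ h5, hc δ] at h2
        exact absurd δ.2.2 (not_lt.2 h2)
      · rw [Valuation.map_sub_eq_of_lt_left _ h5, hc γ] at h2
        exact absurd γ.2.2 (not_lt.2 h2)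
    have : Finite S := Finite.of_injective _ hinj
    exact Set.toFinite S
  have hT : ({γ | γ ≠ 1 ∧ γ ∈ S} ∪ {V.valuation (p : L)} : Set V.ValueGroup).Finite :=
    (hSfin.subset fun γ h => h.2).union (Set.finite_singleton _)
  obtain ⟨γ, hγ, hmax⟩ := Set.exists_max_image _ id hT ⟨_, Or.inr rfl⟩
  simp only [id] at hmax
  obtain ⟨π, hπ⟩ := V.valuation_surjective γ
  have hγp : V.valuation (p : L) ≤ γ := hmax _ (Or.inr rfl)
  have hγ1 : γ < 1 := by
    rcases hγ with h | h
    · exact lt_of_le_of_ne h.2.1 h.1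
    · rw [Set.mem_singleton_iff] at h
      rw [h]
      exact hp1
  have hγ0 : 0 < γ := hvp.trans_le hγp
  refine ⟨π, ?_, by rw [hπ]; exact hγ1, fun d hd => ?_, ?_⟩
  · rintro rfl
    rw [map_zero] at hπ
    rw [← hπ] at hγ0
    exact lt_irrefl _ hγ0
  · rw [hπ]
    rcases le_or_gt (V.valuation d) (V.valuation (p : L)) with h | h
    · exact h.trans hγp
    · exact hmax _ (Or.inl ⟨hd.ne, hd.le, h⟩)
  · rw [hπ]
    by_contra hcon
    push Not at hcon
    refine Set.infinite_of_injective_forall_mem (f := fun k : ℕ => γ ^ k)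
      (pow_right_injective₀ hγ0 hγ1.ne) (fun k => ?_) hSfin
    exact ⟨pow_le_one₀ hγ0.le hγ1.le, hcon k⟩

/-- The values of an anisotropic binary form. -/
theorem val_form (V : ValuationSubring L) (a : L) (haV : V.valuation a ≤ 1)
    (ha : ∀ c : L, V.valuation c ≤ 1 → V.valuation (c ^ 2 + c - a) = 1) (s t : L) :
    ∃ c : L, V.valuation (s ^ 2 + s * t - a * t ^ 2) = V.valuation c ^ 2 := by
  by_cases ht : t = 0
  · subst ht
    exact ⟨s, by rw [← map_pow]; congr 1; ring⟩
  have h1 : s ^ 2 + s * t - a * t ^ 2 = t ^ 2 * ((s / t) ^ 2 + s / t - a) := by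
    field_simp
  rcases le_or_gt (V.valuation (s / t)) 1 with h | h
  · refine ⟨t, ?_⟩
    rw [h1, map_mul, ha _ h, mul_one, map_pow]
  · refine ⟨s, ?_⟩
    have h2 : V.valuation (s / t) < V.valuation ((s / t) ^ 2) := by
      rw [map_pow]
      exact lt_self_pow₀ h one_lt_two
    have h3 : V.valuation ((s / t) ^ 2 + s / t) = V.valuation ((s / t) ^ 2) :=
      Valuation.map_add_eq_of_lt_left _ h2
    have h4 : V.valuation ((s / t) ^ 2 + s / t - a) = V.valuation ((s / t) ^ 2) := by
      rw [Valuation.map_sub_eq_of_lt_left, h3]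
      rw [h3]
      exact haV.trans_lt (h.trans h2)
    rw [h1, map_mul, h4, ← map_mul, ← map_pow]
    congr 1
    field_simp

/-- The maximal ideal is generated by a uniformizer, and a power of it is divisible by `p`. -/
theorem val_sup {V U : ValuationSubring L} (hVU : V ≤ U) (hUV : ¬ U ≤ V) {π : L} (hπ0 : π ≠ 0)
    (hπ : ∀ c : L, V.valuation c < 1 → V.valuation c ≤ V.valuation π)
    (hπ1 : V.valuation π < 1) : U.valuation π = 1 := by
  have hUle : ∀ c : L, V.valuation c ≤ 1 → U.valuation c ≤ 1 := fun c hc =>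
    (U.valuation_le_one_iff c).2 (hVU ((V.valuation_le_one_iff c).1 hc))
  refine le_antisymm (hUle _ hπ1.le) (not_lt.1 fun h => ?_)
  obtain ⟨s, hsU, hsV⟩ := Set.not_subset.1 hUV
  have hs1 : 1 < V.valuation s := not_le.1 fun h => hsV ((V.valuation_le_one_iff s).1 h)
  have hs0 : s ≠ 0 := by
    rintro rfl
    rw [map_zero] at hs1
    exact absurd hs1 (not_lt.2 zero_le_one)
  have h1 : V.valuation (s⁻¹ / π) ≤ 1 := by
    rw [map_div₀, map_inv₀]
    refine div_le_one_of_le₀ ?_ zero_le
    rw [← map_inv₀]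
    apply hπ
    rw [map_inv₀]
    exact inv_lt_one_of_one_lt₀ hs1
  have h2 : U.valuation s⁻¹ < 1 := by
    have h3 : s⁻¹ = (s⁻¹ / π) * π := by field_simp
    rw [h3, map_mul]
    exact (mul_le_of_le_one_left' (hUle _ h1)).trans_lt h
  have h4 : U.valuation s ≤ 1 := (U.valuation_le_one_iff s).2 hsU
  rw [map_inv₀] at h2
  exact absurd ((inv_lt_one₀ ((Valuation.pos_iff _).2 hs0)).1 h2) (not_lt.2 h4)

/-- An element `a` such that `X ^ 2 + X - a` has no root modulo the maximal ideal. -/
theorem exists_anisotropic (V : ValuationSubring L) {p : ℕ}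
    (hp1 : V.valuation (p : L) < 1) (hfin : Finite (V ⧸ Ideal.span {(p : V)})) :
    ∃ a : L, V.valuation a ≤ 1 ∧
      ∀ c : L, V.valuation c ≤ 1 → V.valuation (c ^ 2 + c - a) = 1 := by
  have hpm : (p : V) ∈ IsLocalRing.maximalIdeal V :=
    (ValuationSubring.valuation_lt_one_iff V (p : V)).2 (by push_cast; exact hp1)
  have hle : Ideal.span {(p : V)} ≤ IsLocalRing.maximalIdeal V :=
    (Ideal.span_singleton_le_iff_mem _).2 hpm
  have hk : Finite (IsLocalRing.ResidueField V) :=
    Finite.of_surjective (Ideal.Quotient.factor hle) (Ideal.Quotient.factor_surjective hle)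
  have hnot : ¬ Function.Surjective fun c : IsLocalRing.ResidueField V => c ^ 2 + c := by
    intro h
    have h1 : (0 : IsLocalRing.ResidueField V) = -1 :=
      Finite.injective_iff_surjective.2 h (by ring)
    exact one_ne_zero (neg_eq_zero.1 h1.symm)
  simp only [Function.Surjective, not_forall, not_exists] at hnot
  obtain ⟨a, ha⟩ := hnot
  obtain ⟨a, rfl⟩ := IsLocalRing.residue_surjective a
  refine ⟨a, (V.valuation_le_one_iff _).2 a.2, fun c hc => ?_⟩
  have hcV : c ∈ V := (V.valuation_le_one_iff _).1 hc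
  have h2 : IsLocalRing.residue V (⟨c, hcV⟩ ^ 2 + ⟨c, hcV⟩ - a) ≠ 0 := by
    intro h
    apply ha (IsLocalRing.residue V ⟨c, hcV⟩)
    rw [map_sub, map_add, map_pow, sub_eq_zero] at h
    exact h
  have h3 := (V.valuation_eq_one_iff _).1 ((IsLocalRing.residue_ne_zero_iff_isUnit _).1 h2)
  exact h3

/-- The box of a formally p-adic valuation ring. -/
theorem boxAt_pAdic (h2 : (2 : L) ≠ 0) (V : ValuationSubring L) {π a : L} (hπ0 : π ≠ 0)
    (hπ1 : V.valuation π < 1) (hπ : ∀ c : L, V.valuation c < 1 → V.valuation c ≤ V.valuation π)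
    (haV : V.valuation a ≤ 1)
    (ha : ∀ c : L, V.valuation c ≤ 1 → V.valuation (c ^ 2 + c - a) = 1) :
    BoxAt 2 V π (1 + 4 * a) (4 * π) := by
  intro f b hf hb hmem
  have h4 : (4 : L) ≠ 0 := by
    have : (4 : L) = 2 * 2 := by norm_num
    rw [this]
    exact mul_ne_zero h2 h2
  have hπpos : 0 < V.valuation π := (Valuation.pos_iff _).2 hπ0
  have h41 : V.valuation (4 : L) ≤ 1 := by
    have : (4 : L) = ((4 : V) : L) := rfl
    rw [this]
    exact (V.valuation_le_one_iff _).2 (4 : V).2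
  have hr : V.valuation (4 * π) ≤ V.valuation π := by
    rw [map_mul]
    exact mul_le_of_le_one_left' h41
  have hvf : V.valuation f = V.valuation π := by
    have h5 : f = (f - π) + π := by ring
    rw [h5, Valuation.map_add_eq_of_lt_right _ (hf.trans_le hr)]
  obtain ⟨s, t, hst⟩ := mem_NS_two hmem
  set a' : L := (b - 1) / 4 with ha'
  have hb' : b = 1 + 4 * a' := by
    rw [ha']
    field_simp
    ring
  have haa : V.valuation (a' - a) < 1 := by
    have h5 : b - (1 + 4 * a) = 4 * (a' - a) := by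
      rw [hb']
      ring
    rw [h5, map_mul, map_mul] at hb
    exact (lt_of_mul_lt_mul_left hb zero_le).trans hπ1
  have ha1 : V.valuation a' ≤ 1 := by
    have h5 : a' = (a' - a) + a := by ring
    rw [h5]
    exact (Valuation.map_add _ _ _).trans (max_le haa.le haV)
  obtain ⟨c, hc⟩ := val_form V a' ha1 (fun c hc => by
    have h5 : c ^ 2 + c - a' = (c ^ 2 + c - a) - (a' - a) := by ring
    rw [h5, Valuation.map_sub_eq_of_lt_left, ha c hc]
    rw [ha c hc]
    exact haa) (s - t) (2 * t)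
  have hf2 : f = (s - t) ^ 2 + (s - t) * (2 * t) - a' * (2 * t) ^ 2 := by
    rw [hst, hb']
    ring
  rw [← hf2, hvf] at hc
  have hc1 : V.valuation c < 1 := by
    by_contra h
    have := one_le_pow₀ (n := 2) (not_lt.1 h)
    rw [← hc] at this
    exact absurd hπ1 (not_lt.2 this)
  have h6 : V.valuation c ^ 2 ≤ V.valuation π ^ 2 := by
    gcongr
    exact hπ c hc1
  have h7 : V.valuation π ^ 2 < V.valuation π := pow_lt_self_of_lt_one₀ hπpos hπ1 one_lt_two
  exact absurd hc (h6.trans_lt h7).ne'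

/-- The unit `1 + 4a`. -/
theorem val_one_add (V : ValuationSubring L) {a : L} (haV : V.valuation a ≤ 1)
    (ha : ∀ c : L, V.valuation c ≤ 1 → V.valuation (c ^ 2 + c - a) = 1) :
    V.valuation (1 + 4 * a) = 1 := by
  have h21 : V.valuation (2 : L) ≤ 1 := by
    have : (2 : L) = ((2 : V) : L) := rfl
    rw [this]
    exact (V.valuation_le_one_iff _).2 (2 : V).2
  rcases lt_or_eq_of_le h21 with h | h
  · rw [Valuation.map_add_eq_of_lt_left, map_one]
    have h4 : (4 : L) * a = 2 * (2 * a) := by ring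
    rw [h4, map_mul, map_mul, map_one]
    calc V.valuation (2 : L) * (V.valuation 2 * V.valuation a)
        ≤ V.valuation 2 * (1 * 1) := by gcongr
      _ < 1 := by rw [one_mul, mul_one]; exact h
  · have h20 : (2 : L) ≠ 0 := by
      intro h0
      rw [h0, map_zero] at h
      exact zero_ne_one h
    have h5 : V.valuation (-1 / 2 : L) ≤ 1 := by
      rw [map_div₀, h, Valuation.map_neg, map_one, div_one]
    have h6 := ha _ h5
    have h7 : (1 : L) + 4 * a = -(2 * 2) * ((-1 / 2) ^ 2 + -1 / 2 - a) := by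
      field_simp
      ring
    rw [h7, map_mul, h6, Valuation.map_neg, map_mul, h]
    simp

/-- An NIP field has only finitely many formally p-adic valuation rings. -/
theorem finite_pAdic [CompatibleRing L] (hL : NIP L) :
    {V : ValuationSubring L | ∃ p : ℕ, p.Prime ∧ (p : L) ≠ 0 ∧ V.valuation (p : L) < 1 ∧
      Finite (V ⧸ Ideal.span {(p : V)})}.Finite := by
  have hcop : ∀ (V : ValuationSubring L) (p q : ℕ), p.Prime → q.Prime →
      V.valuation (p : L) < 1 → V.valuation (q : L) < 1 → p = q := by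
    intro V p q hp hq h1 h2
    by_contra hne
    have h3 : IsCoprime (p : ℤ) (q : ℤ) :=
      Nat.isCoprime_iff_coprime.2 ((Nat.coprime_primes hp hq).2 hne)
    obtain ⟨u, v, huv⟩ := h3
    have h4 : (u : L) * (p : L) + (v : L) * (q : L) = 1 := by
      have h5 := congrArg (Int.cast (R := L)) huv
      push_cast at h5
      exact h5
    have hint : ∀ m : ℤ, V.valuation (m : L) ≤ 1 := fun m =>
      (V.valuation_le_one_iff _).2 (by
        have : (m : L) = ((m : V) : L) := by push_cast; rfl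
        rw [this]
        exact (m : V).2)
    have h5 : V.valuation ((u : L) * (p : L) + (v : L) * (q : L)) < 1 := by
      refine (Valuation.map_add _ _ _).trans_lt (max_lt ?_ ?_)
      · rw [map_mul]
        exact (mul_le_of_le_one_left' (hint u)).trans_lt h1
      · rw [map_mul]
        exact (mul_le_of_le_one_left' (hint v)).trans_lt h2
    rw [h4, map_one] at h5
    exact lt_irrefl _ h5
  set S := {V : ValuationSubring L | ∃ p : ℕ, p.Prime ∧ (p : L) ≠ 0 ∧ V.valuation (p : L) < 1 ∧
      Finite (V ⧸ Ideal.span {(p : V)})} with hSdef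
  by_cases hSe : S = ∅
  · rw [hSe]
    exact Set.finite_empty
  -- the characteristic is not `2`
  have h2 : (2 : L) ≠ 0 := by
    intro h0
    obtain ⟨V, p, hp, hp0, hp1, -⟩ := Set.nonempty_iff_ne_empty.2 hSe
    have h3 : V.valuation ((2 : ℕ) : L) < 1 := by
      rw [Nat.cast_ofNat, h0, map_zero]
      exact zero_lt_one
    have h4 := hcop V p 2 hp Nat.prime_two hp1 h3
    rw [h4, Nat.cast_ofNat] at hp0
    exact hp0 h0
  -- the valuation of `2` and of the prime in a proper overring
  have hsup : ∀ V ∈ S, ∀ U : ValuationSubring L, V ≤ U → ¬ U ≤ V →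
      ∀ p : ℕ, p.Prime → V.valuation (p : L) < 1 → U.valuation (p : L) = 1 := by
    rintro V ⟨q, hq, hq0, hq1, hfin⟩ U hVU hUV p hp hp1
    obtain rfl := hcop V p q hp hq hp1 hq1
    obtain ⟨π, hπ0, hπ1, hπ, k, hk⟩ := exists_uniformizer V hq0 hq1 hfin
    have h3 := val_sup hVU hUV hπ0 hπ hπ1
    have h4 : V.valuation (π ^ k / (p : L)) ≤ 1 := by
      rw [map_div₀, map_pow]
      exact div_le_one_of_le₀ hk zero_le
    have h5 : U.valuation (π ^ k / (p : L)) ≤ 1 :=
      (U.valuation_le_one_iff _).2 (hVU ((V.valuation_le_one_iff _).1 h4))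
    refine le_antisymm ((U.valuation_le_one_iff _).2
      (hVU ((V.valuation_le_one_iff _).1 hp1.le))) (not_lt.1 fun h => ?_)
    have h6 : π ^ k = (π ^ k / (p : L)) * (p : L) := by field_simp
    have h7 : U.valuation (π ^ k) < 1 := by
      rw [h6, map_mul]
      exact (mul_le_of_le_one_left' h5).trans_lt h
    rw [map_pow, h3, one_pow] at h7
    exact lt_irrefl _ h7
  have hsup2 : ∀ V ∈ S, ∀ U : ValuationSubring L, V ≤ U → ¬ U ≤ V → U.valuation (2 : L) = 1 := by
    intro V hV U hVU hUV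
    have h21 : V.valuation (2 : L) ≤ 1 := by
      have : (2 : L) = ((2 : V) : L) := rfl
      rw [this]
      exact (V.valuation_le_one_iff _).2 (2 : V).2
    rcases lt_or_eq_of_le h21 with h | h
    · exact_mod_cast hsup V hV U hVU hUV 2 Nat.prime_two (by rwa [Nat.cast_ofNat])
    · exact val_eq_one_of_le hVU h
  have hinc : ∀ V ∈ S, ∀ W ∈ S, V ≠ W → ¬ V ≤ W := by
    intro V hV W hW hVW hle
    have hWV : ¬ W ≤ V := fun h => hVW (le_antisymm hle h)
    obtain ⟨q, hq, hq0, hq1, hfin⟩ := hW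
    have h3 : V.valuation (q : L) < 1 := lt_one_of_le hle hq1
    exact absurd (hsup V hV W hle hWV q hq h3) hq1.ne
  have hnsup : ∀ V ∈ S, ∀ W ∈ S, V ≠ W → ¬ V ⊔ W ≤ V := fun V hV W hW hVW h =>
    hinc W hW V hV hVW.symm (le_sup_right.trans h)
  refine finite_of_box hL Nat.prime_two (by exact_mod_cast h2) S (fun V hV W hW hVW =>
    ⟨hinc V hV W hW hVW, by
      exact_mod_cast hsup2 V hV (V ⊔ W) le_sup_left (hnsup V hV W hW hVW)⟩) fun V hV => ?_
  obtain ⟨p, hp, hp0, hp1, hfin⟩ := id hV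
  obtain ⟨π, hπ0, hπ1, hπ, k, hk⟩ := exists_uniformizer V hp0 hp1 hfin
  obtain ⟨a, haV, ha⟩ := exists_anisotropic V hp1 hfin
  have hy := val_one_add V haV ha
  have h4 : (4 : L) = 2 * 2 := by norm_num
  refine ⟨π, 1 + 4 * a, 4 * π, hπ0, ?_, ?_, fun W hW hVW => ?_, boxAt_pAdic h2 V hπ0 hπ1 hπ haV ha⟩
  · intro h0
    rw [h0, map_zero] at hy
    exact zero_ne_one hy
  · rw [h4]
    exact mul_ne_zero (mul_ne_zero h2 h2) hπ0
  · have h5 := val_sup (le_sup_left : V ≤ V ⊔ W) (hnsup V hV W hW hVW) hπ0 hπ hπ1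
    refine ⟨h5, val_eq_one_of_le le_sup_left hy, ?_⟩
    rw [map_mul, h5, mul_one, h4, map_mul,
      hsup2 V hV (V ⊔ W) le_sup_left (hnsup V hV W hW hVW), mul_one]

end Pool.Agent.NNI
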