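import Pool.Agent.NNI.RP2

/-!
# An NIP field has only finitely many real places: the theorem
-/

set_option autoImplicit false

namespace Pool.Agent.NNI

open FirstOrder FirstOrder.Language FirstOrder.Ring Pool.Agent.NIPFields

universe u

/-- The common norm is negative near `(1, …, 1)`. -/
theorem phi_neg (n : ℕ) : ∃ ε : ℝ, 0 < ε ∧ ∀ x : Fin n → ULift.{u} ℝ,
    (∀ j, |(x j).down - 1| < ε) →
      (Phi 2 n (ULift.{u} ℝ) ((2 : ℕ) : ULift.{u} ℝ)⁻¹ x (-1 - 1)).down < 0 := by
  have : NeZero 2 := ⟨two_ne_zero⟩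
  let D : ULift.{u} ℝ →+* ℝ := (ULift.ringEquiv : ULift.{u} ℝ ≃+* ℝ).toRingHom
  have hD : ∀ y, D y = y.down := fun y => rfl
  let P : MvPolynomial (Fin n) (ULift.{u} ℝ) := Phi 2 n (MvPolynomial (Fin n) (ULift.{u} ℝ))
    (MvPolynomial.C ((2 : ℕ) : ULift.{u} ℝ)⁻¹) MvPolynomial.X (MvPolynomial.C (-1 - 1))
  have hP : ∀ x : Fin n → ULift.{u} ℝ, MvPolynomial.eval x P =
      Phi 2 n (ULift.{u} ℝ) ((2 : ℕ) : ULift.{u} ℝ)⁻¹ x (-1 - 1) := by
    intro x
    simp only [P]
    rw [Phi_map n (MvPolynomial.eval x)]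
    simp only [MvPolynomial.eval_C, MvPolynomial.eval_X]
  have hQ : ∀ x : Fin n → ULift.{u} ℝ,
      (Phi 2 n (ULift.{u} ℝ) ((2 : ℕ) : ULift.{u} ℝ)⁻¹ x (-1 - 1)).down =
        MvPolynomial.eval (fun j => (x j).down) (P.map D) := by
    intro x
    rw [← hP, ← hD, MvPolynomial.map_eval]
    rfl
  have h1 : MvPolynomial.eval (fun _ : Fin n => (1 : ℝ)) (P.map D) = -1 := by
    have h2 := hQ (fun _ => 1)
    have h3 : ((2 : ℕ) : ULift.{u} ℝ)⁻¹ * ((2 : ℕ) : ULift.{u} ℝ) = 1 :=
      inv_mul_cancel₀ (by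
        intro h
        have h4 := congrArg D h
        rw [map_natCast, map_zero] at h4
        norm_num at h4)
    rw [Phi_one n _ _ h3 _ (fun _ => rfl)] at h2
    have h5 : (fun _ : Fin n => (1 : ULift.{u} ℝ).down) = fun _ => (1 : ℝ) := rfl
    rw [h5] at h2
    rw [← h2]
    show (1 : ℝ) + (-1 - 1) = -1
    norm_num
  have hc : Continuous fun x : Fin n → ℝ => MvPolynomial.eval x (P.map D) :=
    MvPolynomial.continuous_eval _
  have hopen : IsOpen {x : Fin n → ℝ | MvPolynomial.eval x (P.map D) < 0} :=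
    isOpen_lt hc continuous_const
  obtain ⟨ε, hε, hball⟩ := Metric.isOpen_iff.1 hopen (fun _ => 1) (by
    show MvPolynomial.eval (fun _ : Fin n => (1 : ℝ)) (P.map D) < 0
    rw [h1]
    norm_num)
  refine ⟨ε, hε, fun x hx => ?_⟩
  rw [hQ]
  refine hball ?_
  rw [Metric.mem_ball, dist_pi_lt_iff hε]
  intro j
  rw [Real.dist_eq]
  exact hx j

/-- Negative elements are no norms. -/
theorem not_mem_NS_real {a b : ℝ} (ha : a < 0) (hb : b < 0) : a ∉ NS 2 b := by
  rintro ⟨z, hz⟩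
  rw [Matrix.det_fin_two] at hz
  simp only [nmat, Matrix.of_apply] at hz
  have h1 : (if (0 : Fin 2) ≤ 0 then (1 : ℝ) else b) = 1 := by simp
  have h2 : (if (1 : Fin 2) ≤ 1 then (1 : ℝ) else b) = 1 := by simp
  have h3 : (if (1 : Fin 2) ≤ 0 then (1 : ℝ) else b) = b := by simp
  have h4 : (if (0 : Fin 2) ≤ 1 then (1 : ℝ) else b) = 1 := by simp
  have h5 : (0 : Fin 2) - 1 = 1 := rfl
  rw [h1, h2, h3, h4, h5, sub_zero, sub_self, sub_zero] at hz
  nlinarith [sq_nonneg (z 0), sq_nonneg (z 1)]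

variable {L : Type u} [Field L]

/-- The ring of the elements which are finite at all real places. -/
def Hol (L : Type u) [Field L] [CharZero L] : Subalgebra ℚ L where
  carrier := {x | Fin' x}
  mul_mem' := fun hx hy W ψ hψ => mul_mem (hx W ψ hψ) (hy W ψ hψ)
  add_mem' := fun hx hy W ψ hψ => add_mem (hx W ψ hψ) (hy W ψ hψ)
  algebraMap_mem' := fun q W ψ hψ => by
    have h0 : ∀ m : ℕ, m ≠ 0 → ψ (m : W) ≠ 0 := fun m hm => by
      rw [map_natCast]
      exact_mod_cast hm
    obtain ⟨h1, _⟩ := div_mem W ψ hψ (x := (q.num : W)) (y := (q.den : W)) (h0 _ q.den_nz)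
    have h2 : algebraMap ℚ L q = (((q.num : ℤ) : W) : L) / (((q.den : ℕ) : W) : L) := by
      rw [eq_ratCast]
      conv_lhs => rw [← Rat.num_div_den q]
      push_cast
      rfl
    rw [h2]
    exact h1

theorem shatE_of_realPlaces {n : ℕ} (V : Fin n → ValuationSubring L)
    (φ : ∀ i, V i →+* ℝ) (hφ : ∀ i, IsLocalHom (φ i))
    (hne : ∀ i j, i ≠ j → (⟨V i, φ i⟩ : Σ V : ValuationSubring L, V →+* ℝ) ≠ ⟨V j, φ j⟩) :
    ShatE 2 L n := by
  classical
  have : NeZero 2 := ⟨two_ne_zero⟩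
  rcases Nat.eq_zero_or_pos n with hn | hn
  · subst hn
    exact ⟨fun i => i.elim0, fun _ => 0, fun i => i.elim0⟩
  have hchar : CharZero L := by
    have i0 : Fin n := ⟨0, hn⟩
    have h1 : CharZero (V i0) := ⟨fun a b hab => by
      have h2 := congrArg (φ i0) hab
      rw [map_natCast, map_natCast] at h2
      exact_mod_cast h2⟩
    refine ⟨fun a b hab => ?_⟩
    have h3 : ((a : V i0) : L) = ((b : V i0) : L) := by
      push_cast
      exact hab
    have h4 : (a : V i0) = (b : V i0) := Subtype.ext h3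
    exact_mod_cast h4
  -- the homomorphisms of the holomorphy ring
  let ι : ∀ i, (Hol L) →+* V i := fun i =>
    { toFun := fun x => ⟨x, x.2 (V i) (φ i) (hφ i)⟩
      map_one' := rfl
      map_mul' := fun _ _ => rfl
      map_zero' := rfl
      map_add' := fun _ _ => rfl }
  let ψ : Fin n → (Hol L) →+* ℝ := fun i => (φ i).comp (ι i)
  have hsep : ∀ i j, i ≠ j → ∃ h, ψ i h ≠ ψ j h := by
    intro i j hij
    obtain ⟨x, hx, hx'⟩ := exists_sep (hφ i) (hφ j) (hne i j hij)
    exact ⟨⟨x, hx⟩, hx' _ _⟩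
  obtain ⟨ε, hε, hneg⟩ := phi_neg.{u} n
  choose z hz0 hz1 hz2 using fun j => exists_small_large_real ψ hsep j (1 / 2) (2 / ε) (by norm_num)
  -- the elements `b`
  let b : Fin n → L := fun j => ((z j : L) - 1) / ((z j : L) + 1)
  have hb : ∀ i j, ∃ h : b j ∈ V i, φ i ⟨b j, h⟩ = (ψ i (z j) - 1) / (ψ i (z j) + 1) := by
    intro i j
    have h1 : φ i (ι i (z j + 1)) = ψ i (z j) + 1 := by
      show ψ i (z j + 1) = _
      rw [map_add, map_one]
    have h2 : φ i (ι i (z j - 1)) = ψ i (z j) - 1 := by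
      show ψ i (z j - 1) = _
      rw [map_sub, map_one]
    have h3 : φ i (ι i (z j + 1)) ≠ 0 := by
      rw [h1]
      have := hz0 j i
      positivity
    obtain ⟨h4, h5⟩ := div_mem (V i) (φ i) (hφ i) (x := ι i (z j - 1)) h3
    rw [h1, h2] at h5
    exact ⟨h4, h5⟩
  choose hbV hbφ using hb
  have hbneg : ∀ i, φ i ⟨b i, hbV i i⟩ < 0 := by
    intro i
    rw [hbφ]
    have h1 := hz0 i i
    have h2 := hz1 i
    exact div_neg_of_neg_of_pos (by linarith) (by linarith)
  have hbone : ∀ i j, j ≠ i → |φ i ⟨b j, hbV i j⟩ - 1| < ε := by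
    intro i j hij
    rw [hbφ]
    have h1 := hz0 j i
    have h2 := hz2 j i hij.symm
    have h3 : 0 < ψ i (z j) + 1 := by linarith
    have h4 : (ψ i (z j) - 1) / (ψ i (z j) + 1) - 1 = -(2 / (ψ i (z j) + 1)) := by
      field_simp
      ring
    rw [h4, abs_neg, abs_of_pos (by positivity), div_lt_iff₀ h3]
    rw [div_lt_iff₀ hε] at h2
    nlinarith
  have hf : ∀ i, ∃ f : L, (∀ j, j ≠ i → f ∈ NS 2 (b j)) ∧
      ∃ h : f ∈ V i, φ i ⟨f, h⟩ < 0 := by
    intro i
    have h20 : ((2 : ℕ) : L) ≠ 0 := Nat.cast_ne_zero.2 two_ne_zero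
    have h2V : ((2 : ℕ) : L)⁻¹ ∈ (V i).toSubring := by
      have h1 : φ i ((2 : ℕ) : V i) ≠ 0 := by
        rw [map_natCast]
        norm_num
      obtain ⟨h4, _⟩ := div_mem (V i) (φ i) (hφ i) (x := 1) h1
      rw [inv_eq_one_div]
      exact h4
    let c : Fin n → (V i).toSubring := fun j => if j = i then 1 else ⟨b j, hbV i j⟩
    let U : (V i).toSubring →+* ULift.{u} ℝ :=
      ((ULift.ringEquiv : ULift.{u} ℝ ≃+* ℝ).symm.toRingHom).comp (φ i)
    have hU : ∀ y, (U y).down = φ i y := fun y => rfl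
    obtain ⟨f, hf1, hf2⟩ := exists_common (V i).toSubring h20 h2V (k := ULift.{u} ℝ) U n c (-1)
    refine ⟨f, fun j hj => ?_, f.2, ?_⟩
    · have h1 := hf1 j
      simp only [c, if_neg hj] at h1
      exact h1
    · have h1 := hneg (fun j => U (c j)) (fun j => by
        rw [hU]
        by_cases h : j = i
        · simp only [c, if_pos h]
          rw [show φ i (1 : (V i).toSubring) = 1 from map_one (φ i), sub_self, abs_zero]
          exact hε
        · simp only [c, if_neg h]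
          exact hbone i j h)
      rw [map_neg, map_one] at hf2
      rw [← hf2] at h1
      exact h1
  choose f hf1 hfV hf2 using hf
  refine shatE_of_norms n b f (fun i => ?_) hf1
  exact not_mem_NS_place Nat.prime_two (V i) (φ i) (hφ i) ⟨f i, hfV i⟩ ⟨b i, hbV i i⟩
    (hf2 i).ne (fun c hc => by
      have h1 := hbneg i
      rw [← hc] at h1
      exact absurd (sq_nonneg c) (not_le.2 h1))
    (not_mem_NS_real (hf2 i) (hbneg i))

/-- An NIP field has only finitely many real places. -/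
theorem finite_realPlaces [CompatibleRing L] (hL : NIP L) :
    Finite {p : Σ V : ValuationSubring L, V →+* ℝ // IsLocalHom p.2} := by
  by_contra hinf
  rw [not_finite_iff_infinite] at hinf
  obtain ⟨n, hn⟩ := hL.exists_not_shatE 2
  let e := Infinite.natEmbedding {p : Σ V : ValuationSubring L, V →+* ℝ // IsLocalHom p.2}
  refine hn (shatE_of_realPlaces (fun i : Fin n => (e i).1.1) (fun i => (e i).1.2)
    (fun i => (e i).2) fun i j hij h => hij ?_)
  have h1 : e i = e j := Subtype.ext h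
  exact Fin.ext (e.injective h1)

end Pool.Agent.NNI
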