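import Pool.Agent.NIPFields.Approx

/-!
# Approximation for incomparable valuation rings
-/

set_option autoImplicit false

namespace Pool.Agent.NNI

open Pool.Agent.NIPFields

variable {K : Type*} [Field K]

/-- If `A` is not contained in `B` and `a` is a unit of the valuation ring generated by `A` and
`B`, then `a A` is not contained in `B`. -/
theorem not_mul_le' (A B : ValuationSubring K) (hAB : ¬ A ≤ B) (a : K)
    (ha : (A ⊔ B).valuation a = 1) : ∃ x ∈ A, a * x ∉ B := by
  by_contra hcon
  push Not at hcon
  have ha0 : a ≠ 0 := by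
    rintro rfl
    rw [map_zero] at ha
    exact zero_ne_one ha
  apply hAB
  let S : Subalgebra B K := Algebra.adjoin B (A : Set K)
  have hBS : B.toSubring ≤ S.toSubring := by
    intro x hx
    have : algebraMap B K ⟨x, hx⟩ ∈ S := S.algebraMap_mem _
    simpa using this
  have hAS : A ≤ ValuationSubring.ofLE B S.toSubring hBS := by
    intro x hx
    exact Algebra.subset_adjoin hx
  have hBS' : B ≤ ValuationSubring.ofLE B S.toSubring hBS := fun x hx => hBS hx
  have hle : A ⊔ B ≤ ValuationSubring.ofLE B S.toSubring hBS := sup_le hAS hBS'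
  have hmem : ∀ x ∈ A ⊔ B, x ∈ Submodule.span B (A : Set K) := by
    intro x hx
    have hx : x ∈ S := hle hx
    have h2 : x ∈ Subalgebra.toSubmodule S := hx
    rw [Algebra.adjoin_eq_span] at h2
    have hcl : (Submonoid.closure (A : Set K) : Set K) = (A : Set K) := by
      have := Submonoid.closure_eq (A.toSubring.toSubmonoid)
      have h3 : ((A.toSubring.toSubmonoid : Submonoid K) : Set K) = (A : Set K) := rfl
      rw [h3] at this
      rw [this, h3]
    rw [hcl] at h2
    exact h2
  have hall : ∀ x ∈ Submodule.span B (A : Set K), a * x ∈ B := by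
    intro x hx
    induction hx using Submodule.span_induction with
    | mem x hx => exact hcon x hx
    | zero => simp
    | add x y _ _ hx hy => rw [mul_add]; exact B.add_mem _ _ hx hy
    | smul r x _ hx =>
      have : a * (r • x) = (r : K) * (a * x) := by
        rw [Algebra.smul_def]
        have : algebraMap B K r = (r : K) := rfl
        rw [this]; ring
      rw [this]
      exact B.mul_mem _ _ r.2 hx
  intro x hx
  have hax : a⁻¹ * x ∈ A ⊔ B := by
    rw [← ValuationSubring.valuation_le_one_iff, map_mul, map_inv₀, ha, inv_one, one_mul,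
      ValuationSubring.valuation_le_one_iff]
    exact (le_sup_left : A ≤ A ⊔ B) hx
  have := hall (a⁻¹ * x) (hmem _ hax)
  rwa [mul_inv_cancel_left₀ ha0] at this

/-- The maximal ideal of an overring is contained in the maximal ideal. -/
theorem lt_one_of_le {A W : ValuationSubring K} (h : A ≤ W) {x : K} (hx : W.valuation x < 1) :
    A.valuation x < 1 := by
  by_cases hx0 : x = 0
  · rw [hx0, map_zero]
    exact zero_lt_one
  by_contra hcon
  have h1 : x⁻¹ ∈ A := by
    rw [← ValuationSubring.valuation_le_one_iff, map_inv₀]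
    exact inv_le_one_of_one_le₀ (not_lt.1 hcon)
  have h2 := (W.valuation_le_one_iff _).2 (h h1)
  rw [map_inv₀] at h2
  have h3 : 1 ≤ W.valuation x := (inv_le_one₀ ((Valuation.pos_iff _).2 hx0)).1 h2
  exact absurd hx (not_lt.2 h3)

/-- A unit of the overring which is small for the smaller ring. -/
theorem exists_small_unit {A W : ValuationSubring K} (h : A ≤ W) (hne : ¬ W ≤ A) :
    ∃ c : K, W.valuation c = 1 ∧ A.valuation c < 1 := by
  obtain ⟨s, hsW, hsA⟩ := Set.not_subset.1 hne
  have hs0 : s ≠ 0 := by
    rintro rfl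
    exact hsA A.zero_mem
  have h1 : 1 < A.valuation s := by
    by_contra hcon
    exact hsA ((A.valuation_le_one_iff _).1 (not_lt.1 hcon))
  have h2 : W.valuation s = 1 := by
    refine le_antisymm ((W.valuation_le_one_iff _).2 hsW) (not_lt.1 fun hlt => ?_)
    exact absurd (lt_one_of_le h hlt) (not_lt.2 h1.le)
  refine ⟨s⁻¹, by rw [map_inv₀, h2, inv_one], ?_⟩
  rw [map_inv₀]
  exact inv_lt_one_of_one_lt₀ h1

/-- Two incomparable valuations: small at the first, large at the second. -/
theorem exists_small_large_inc (A B : ValuationSubring K) (hAB : ¬ A ≤ B) (hBA : ¬ B ≤ A)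
    (a b : K) (ha : (A ⊔ B).valuation a = 1) (hb : (A ⊔ B).valuation b = 1) :
    ∃ z : K, A.valuation z < A.valuation a ∧ B.valuation b < B.valuation z := by
  have ha0 : a ≠ 0 := by
    rintro rfl
    rw [map_zero] at ha
    exact zero_ne_one ha
  have hb0 : b ≠ 0 := by
    rintro rfl
    rw [map_zero] at hb
    exact zero_ne_one hb
  obtain ⟨c, hc, hcA⟩ := exists_small_unit (le_sup_left : A ≤ A ⊔ B)
    (fun h => hBA (le_sup_right.trans h))
  have hc0 : c ≠ 0 := by
    rintro rfl
    rw [map_zero] at hc
    exact zero_ne_one hc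
  obtain ⟨x, hxA, hxB⟩ := not_mul_le' A B hAB (a * c / b) (by
    rw [map_div₀, map_mul, ha, hb, hc, mul_one, div_one])
  refine ⟨a * c * x, ?_, ?_⟩
  · rw [map_mul, map_mul]
    have h1 : A.valuation x ≤ 1 := (A.valuation_le_one_iff x).2 hxA
    have h2 : A.valuation c * A.valuation x < 1 :=
      (mul_le_of_le_one_right' h1).trans_lt hcA
    rw [mul_assoc]
    exact mul_lt_of_lt_one_right ((Valuation.pos_iff _).2 ha0) h2
  · have h1 : 1 < B.valuation (a * c / b * x) := by
      by_contra h
      exact hxB (B.mem_of_valuation_le_one _ (not_lt.1 h))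
    have h0 : 0 < B.valuation b := (Valuation.pos_iff _).2 hb0
    have : a * c * x = b * (a * c / b * x) := by field_simp
    rw [this, map_mul]
    exact lt_mul_of_one_lt_right h0 h1

/-- An element which is small at one valuation and large at finitely many others. -/
theorem exists_small_large_finset' {ι : Type*} [DecidableEq ι] (V : ι → ValuationSubring K)
    (j : ι) (s : Finset ι) (hind : ∀ i ∈ s, ¬ V j ≤ V i ∧ ¬ V i ≤ V j)
    (a : K) (ha : a ≠ 0) (ha1 : (V j).valuation a ≤ 1)
    (haW : ∀ i ∈ s, (V j ⊔ V i).valuation a = 1)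
    (b : ι → K) (hb1 : ∀ i ∈ s, 1 ≤ (V i).valuation (b i))
    (hbW : ∀ i ∈ s, (V j ⊔ V i).valuation (b i) = 1) :
    ∃ z : K, (V j).valuation z < (V j).valuation a ∧
      ∀ i ∈ s, (V i).valuation (b i) < (V i).valuation z := by
  induction s using Finset.induction_on with
  | empty => exact ⟨0, by rw [map_zero]; exact (Valuation.pos_iff _).2 ha, by simp⟩
  | insert k s hk ih =>
    obtain ⟨z₁, hz₁, hz₁'⟩ := ih (fun i hi => hind i (Finset.mem_insert_of_mem hi))
      (fun i hi => haW i (Finset.mem_insert_of_mem hi))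
      (fun i hi => hb1 i (Finset.mem_insert_of_mem hi))
      (fun i hi => hbW i (Finset.mem_insert_of_mem hi))
    have hkk := Finset.mem_insert_self k s
    obtain ⟨z₂, hz₂, hz₂'⟩ := exists_small_large_inc (V j) (V k) (hind k hkk).1 (hind k hkk).2
      a (b k) (haW k hkk) (hbW k hkk)
    have hz₂k : 1 < (V k).valuation z₂ := (hb1 k hkk).trans_lt hz₂'
    have hz₂0 : z₂ ≠ 0 := by
      rintro rfl
      rw [map_zero] at hz₂k
      exact absurd hz₂k (not_lt.2 zero_le_one)
    have hfin : (⋃ i ∈ (insert k s : Finset ι),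
        {m : ℕ | (V i).valuation z₁ = (V i).valuation z₂ ^ m}).Finite := by
      refine Set.Finite.biUnion (Finset.finite_toSet _) ?_
      intro i hi
      by_cases h1 : (V i).valuation z₂ = 1
      · have hik : i ≠ k := by rintro rfl; exact absurd h1 hz₂k.ne'
        have his : i ∈ s := by
          rcases Finset.mem_insert.1 hi with h | h
          · exact absurd h hik
          · exact h
        convert Set.finite_empty
        ext m
        simp only [Set.mem_ofPred_eq, h1, one_pow, Set.mem_empty_iff_false, iff_false]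
        exact ((hb1 i hi).trans_lt (hz₁' i his)).ne'
      · exact pow_eq_finite _ _ ((Valuation.ne_zero_iff _).2 hz₂0) h1
    obtain ⟨m, hm⟩ := (hfin.union (Set.finite_singleton 0)).exists_notMem
    simp only [Set.mem_union, Set.mem_iUnion, Set.mem_ofPred_eq, Set.mem_singleton_iff,
      not_or, not_exists] at hm
    obtain ⟨hm, hm0⟩ := hm
    refine ⟨z₁ + z₂ ^ m, ?_, ?_⟩
    · refine (Valuation.map_add_lt _ hz₁ ?_)
      rw [map_pow]
      calc (V j).valuation z₂ ^ m ≤ (V j).valuation z₂ ^ 1 :=
            pow_le_pow_of_le_one zero_le (hz₂.le.trans ha1) (Nat.one_le_iff_ne_zero.2 hm0)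
        _ < _ := by rwa [pow_one]
    · intro i hi
      have hne : (V i).valuation z₁ ≠ (V i).valuation (z₂ ^ m) := by
        rw [map_pow]; exact hm i hi
      rw [Valuation.map_add_of_distinct_val _ hne, map_pow]
      rcases Finset.mem_insert.1 hi with h | h
      · subst h
        refine lt_max_of_lt_right ?_
        calc _ < (V i).valuation z₂ ^ 1 := by rwa [pow_one]
          _ ≤ _ := pow_le_pow_right₀ hz₂k.le (Nat.one_le_iff_ne_zero.2 hm0)
      · exact lt_max_of_lt_left (hz₁' i h)

end Pool.Agent.NNI
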