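import Pool.Agent.NNI.Dvr
import Pool.Agent.NNI.ValNorm

/-!
# Incomparable valuation rings with a non-trivial norm relation
-/

set_option autoImplicit false

namespace Pool.Agent.NNI

open Polynomial FirstOrder FirstOrder.Language FirstOrder.Ring Pool.Agent.NIPFields

universe u

/-- A box from a residual non-norm. -/
theorem box0_of_residue {L : Type u} [Field L] {ℓ : ℕ} (hℓ : ℓ.Prime) (V : ValuationSubring L)
    (x y : V) (hy : ∀ c, c ^ ℓ ≠ IsLocalRing.residue V y)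
    (hx : IsLocalRing.residue V x ∉ NS ℓ (IsLocalRing.residue V y)) :
    Box0 ℓ V (x : L) (y : L) := by
  have : NeZero ℓ := ⟨hℓ.ne_zero⟩
  have hy0 : IsLocalRing.residue V y ≠ 0 := fun h => by
    apply hy 0
    rw [h, zero_pow hℓ.ne_zero]
  have hx0 : IsLocalRing.residue V x ≠ 0 := fun h => by
    apply hx
    rw [h]
    exact zero_mem_NS _
  have hy1 : V.valuation (y : L) = 1 :=
    (V.valuation_eq_one_iff y).1 ((IsLocalRing.residue_ne_zero_iff_isUnit y).1 hy0)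
  have hx1 : V.valuation (x : L) = 1 :=
    (V.valuation_eq_one_iff x).1 ((IsLocalRing.residue_ne_zero_iff_isUnit x).1 hx0)
  intro f b hf hb
  rw [hx1] at hf
  rw [hy1] at hb
  have hfV : f ∈ V := by
    have h1 : f = (f - x) + x := by ring
    rw [h1]
    exact add_mem ((V.valuation_le_one_iff _).1 hf.le) x.2
  have hbV : b ∈ V := by
    have h1 : b = (b - y) + y := by ring
    rw [h1]
    exact add_mem ((V.valuation_le_one_iff _).1 hb.le) y.2
  have hfr : IsLocalRing.residue V ⟨f, hfV⟩ = IsLocalRing.residue V x := by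
    rw [← sub_eq_zero, ← map_sub, IsLocalRing.residue_eq_zero_iff,
      ValuationSubring.valuation_lt_one_iff]
    exact hf
  have hbr : IsLocalRing.residue V ⟨b, hbV⟩ = IsLocalRing.residue V y := by
    rw [← sub_eq_zero, ← map_sub, IsLocalRing.residue_eq_zero_iff,
      ValuationSubring.valuation_lt_one_iff]
    exact hb
  refine not_mem_NS_place hℓ V (IsLocalRing.residue V) inferInstance ⟨f, hfV⟩ ⟨b, hbV⟩ ?_ ?_ ?_
  · rw [hfr]
    exact hx0
  · rw [hbr]
    exact hy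
  · rw [hfr, hbr]
    exact hx

/-- A box from two values which are independent modulo `ℓ`. -/
theorem box0_of_values {L : Type u} [Field L] {ℓ : ℕ} (hℓ : ℓ.Prime) (hℓ0 : (ℓ : L) ≠ 0)
    (V : ValuationSubring L) (x y : L) (hy : ∀ c : L, V.valuation c ^ ℓ ≠ V.valuation y)
    (hx : ∀ (c : L) (i : ℕ), V.valuation c ^ ℓ * V.valuation y ^ i ≠ V.valuation x) :
    Box0 ℓ V x y := by
  have hfact : Fact ℓ.Prime := ⟨hℓ⟩
  intro f b hf hb hmem
  have hvf : V.valuation f = V.valuation x := by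
    have h4 : f = (f - x) + x := by ring
    rw [h4, Valuation.map_add_eq_of_lt_right _ hf]
  have hvb : V.valuation b = V.valuation y := by
    have h4 : b = (b - y) + y := by ring
    rw [h4, Valuation.map_add_eq_of_lt_right _ hb]
  have hf0 : f ≠ 0 := by
    rintro rfl
    apply hx 0 0
    rw [← hvf, map_zero, zero_pow hℓ.ne_zero, zero_mul]
  obtain ⟨c, i, hci⟩ := val_of_mem_NS V hℓ0 b f (fun c h => hy c (by rw [← h, hvb])) hf0 hmem
  apply hx c i
  rw [← hvf, hci, hvb]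

/-- Units of a valuation ring are units of every overring. -/
theorem val_eq_one_of_le {L : Type u} [Field L] {V W : ValuationSubring L} (h : V ≤ W) {x : L}
    (hx : V.valuation x = 1) : W.valuation x = 1 := by
  refine le_antisymm ((W.valuation_le_one_iff _).2
    (h ((V.valuation_le_one_iff _).1 hx.le))) (not_lt.1 fun hlt => ?_)
  exact absurd hx (lt_one_of_le h hlt).ne

/-- The criterion. -/
theorem finite_of_crit {L : Type u} [Field L] [CompatibleRing L] (hL : NIP L) {ℓ : ℕ}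
    (hℓ : ℓ.Prime) (hℓ0 : (ℓ : L) ≠ 0) (S : Set (ValuationSubring L))
    (hS : ∀ V ∈ S, ∀ W ∈ S, V ≠ W → ¬ V ≤ W ∧ (V ⊔ W).valuation (ℓ : L) = 1)
    (h : ∀ V ∈ S, (∃ a b : IsLocalRing.ResidueField V, (∀ c, c ^ ℓ ≠ b) ∧
        ∀ z : AdjoinRoot (X ^ ℓ - C b), Algebra.norm (IsLocalRing.ResidueField V) z ≠ a) ∨
      ((∃ a : IsLocalRing.ResidueField V, ∀ c, c ^ ℓ ≠ a) ∧
        ∃ y : L, (∀ c : L, V.valuation c ^ ℓ ≠ V.valuation y) ∧
          ∀ W ∈ S, V ≠ W → (V ⊔ W).valuation y = 1) ∨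
      ∃ x y : L, (∀ c : L, V.valuation c ^ ℓ ≠ V.valuation y) ∧
        (∀ (c : L) (i : ℕ), V.valuation c ^ ℓ * V.valuation y ^ i ≠ V.valuation x) ∧
          ∀ W ∈ S, V ≠ W → (V ⊔ W).valuation x = 1 ∧ (V ⊔ W).valuation y = 1) :
    S.Finite := by
  have : NeZero ℓ := ⟨hℓ.ne_zero⟩
  refine finite_of_box hL hℓ hℓ0 S hS fun V hV => ?_
  have hcase : ∀ x y : L, x ≠ 0 → y ≠ 0 → (∀ W ∈ S, V ≠ W → (V ⊔ W).valuation x = 1 ∧
      (V ⊔ W).valuation y = 1) → Box0 ℓ V x y → ∃ x y r : L, x ≠ 0 ∧ y ≠ 0 ∧ r ≠ 0 ∧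
      (∀ W ∈ S, V ≠ W → (V ⊔ W).valuation x = 1 ∧ (V ⊔ W).valuation y = 1 ∧
        (V ⊔ W).valuation r = 1) ∧ BoxAt ℓ V x y r := by
    intro x y hx0 hy0 hW hb
    obtain ⟨r, hr | hr, hbox⟩ := exists_radius hb
    · subst hr
      exact ⟨r, y, r, hx0, hy0, hx0, fun W h1 h2 => ⟨(hW W h1 h2).1, (hW W h1 h2).2,
        (hW W h1 h2).1⟩, hbox⟩
    · subst hr
      exact ⟨x, r, r, hx0, hy0, hy0, fun W h1 h2 => ⟨(hW W h1 h2).1, (hW W h1 h2).2,
        (hW W h1 h2).2⟩, hbox⟩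
  have hunit : ∀ x : V, IsLocalRing.residue V x ≠ 0 →
      (x : L) ≠ 0 ∧ V.valuation (x : L) = 1 := by
    intro x hx
    have h1 : V.valuation (x : L) = 1 :=
      (V.valuation_eq_one_iff x).1 ((IsLocalRing.residue_ne_zero_iff_isUnit x).1 hx)
    refine ⟨fun h0 => ?_, h1⟩
    rw [h0, map_zero] at h1
    exact zero_ne_one h1
  rcases h V hV with ⟨a, b, hb, ha⟩ | ⟨⟨a, ha⟩, y, hy, hyW⟩ | ⟨x, y, hy, hx, hW⟩
  · obtain ⟨x, rfl⟩ := IsLocalRing.residue_surjective a
    obtain ⟨y, rfl⟩ := IsLocalRing.residue_surjective b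
    have hx : IsLocalRing.residue V x ∉ NS ℓ (IsLocalRing.residue V y) := by
      rw [← NSR_eq_NS, mem_NSR_iff_adj]
      rintro ⟨z, hz⟩
      exact ha z hz
    have hx0 : IsLocalRing.residue V x ≠ 0 := fun h0 => by
      apply hx
      rw [h0]
      exact zero_mem_NS _
    have hy0 : IsLocalRing.residue V y ≠ 0 := fun h0 => by
      apply hb 0
      rw [h0, zero_pow hℓ.ne_zero]
    exact hcase x y (hunit x hx0).1 (hunit y hy0).1 (fun W _ _ =>
      ⟨val_eq_one_of_le le_sup_left (hunit x hx0).2, val_eq_one_of_le le_sup_left (hunit y hy0).2⟩)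
      (box0_of_residue hℓ V x y hb hx)
  · obtain ⟨x, rfl⟩ := IsLocalRing.residue_surjective a
    have hx0 : IsLocalRing.residue V x ≠ 0 := fun h0 => by
      apply ha 0
      rw [h0, zero_pow hℓ.ne_zero]
    have hy0 : y ≠ 0 := by
      rintro rfl
      apply hy 0
      rw [map_zero, zero_pow hℓ.ne_zero]
    exact hcase x y (hunit x hx0).1 hy0 (fun W hW hVW =>
      ⟨val_eq_one_of_le le_sup_left (hunit x hx0).2, hyW W hW hVW⟩)
      (box0_of_value hℓ hℓ0 V x ha y hy)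
  · have hy0 : y ≠ 0 := by
      rintro rfl
      apply hy 0
      rw [map_zero, zero_pow hℓ.ne_zero]
    have hx0 : x ≠ 0 := by
      rintro rfl
      apply hx 0 0
      rw [map_zero, zero_pow hℓ.ne_zero, zero_mul]
    exact hcase x y hx0 hy0 hW (box0_of_values hℓ hℓ0 V x y hy hx)

end Pool.Agent.NNI
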