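import Pool.Agent.NNI.Gen

/-!
# Discrete valuation rings of an NIP field
-/

set_option autoImplicit false

namespace Pool.Agent.NNI

open Polynomial FirstOrder FirstOrder.Language FirstOrder.Ring Pool.Agent.NIPFields

universe u

/-- A box from a unit which is no `ℓ`-th power modulo the maximal ideal and an element whose value
is not divisible by `ℓ`. -/
theorem box0_of_value {L : Type u} [Field L] {ℓ : ℕ} (hℓ : ℓ.Prime) (hℓ0 : (ℓ : L) ≠ 0)
    (V : ValuationSubring L) (x : V) (hx : ∀ c, c ^ ℓ ≠ IsLocalRing.residue V x) (y : L)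
    (hy : ∀ c : L, V.valuation c ^ ℓ ≠ V.valuation y) : Box0 ℓ V (x : L) y := by
  have hfact : Fact ℓ.Prime := ⟨hℓ⟩
  have hx0 : IsLocalRing.residue V x ≠ 0 := fun h => by
    apply hx 0
    rw [h, zero_pow hℓ.ne_zero]
  have hxu : IsUnit x := (IsLocalRing.residue_ne_zero_iff_isUnit x).1 hx0
  have hx1 : V.valuation (x : L) = 1 := (V.valuation_eq_one_iff x).1 hxu
  intro f b hf hb
  rw [hx1] at hf
  have hvb : V.valuation b = V.valuation y := by
    have h4 : b = (b - y) + y := by ring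
    rw [h4, Valuation.map_add_eq_of_lt_right _ hb]
  refine not_mem_NS V hℓ0 b f x (fun c h => hy c (by rw [← h, hvb])) hx1 (fun c hc => ?_) hf
  have hcV : c ∈ V := by
    have hc1 : V.valuation (c ^ ℓ) ≤ 1 := by
      have h4 : c ^ ℓ = (x : L) - ((x : L) - c ^ ℓ) := by ring
      rw [h4]
      exact (Valuation.map_sub _ _ _).trans (max_le hx1.le hc.le)
    rw [← ValuationSubring.valuation_le_one_iff]
    rw [map_pow] at hc1
    exact (pow_le_one_iff_of_nonneg zero_le hℓ.ne_zero).1 hc1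
  apply hx (IsLocalRing.residue V ⟨c, hcV⟩)
  rw [← map_pow, ← sub_eq_zero, ← map_sub, IsLocalRing.residue_eq_zero_iff,
    ValuationSubring.valuation_lt_one_iff]
  show V.valuation (c ^ ℓ - (x : L)) < 1
  rw [Valuation.map_sub_swap]
  exact hc

/-- A discrete valuation ring is a maximal proper subring. -/
theorem eq_top_of_dvr {L : Type u} [Field L] (V U : ValuationSubring L)
    [IsDiscreteValuationRing V] (hVU : V ≤ U) (hne : ¬ U ≤ V) : U = ⊤ := by
  obtain ⟨c, hcU, hcV⟩ := exists_small_unit hVU hne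
  have hc0 : c ≠ 0 := by
    rintro rfl
    rw [map_zero] at hcU
    exact zero_ne_one hcU
  obtain ⟨π, hπ⟩ := IsDiscreteValuationRing.exists_irreducible V
  have hcVm : c ∈ V := (V.valuation_le_one_iff _).1 hcV.le
  have hcm : (⟨c, hcVm⟩ : V) ∈ IsLocalRing.maximalIdeal V :=
    (ValuationSubring.valuation_lt_one_iff V ⟨c, hcVm⟩).2 hcV
  rw [hπ.maximalIdeal_eq, Ideal.mem_span_singleton'] at hcm
  obtain ⟨t, ht⟩ := hcm
  have hcπ : V.valuation c ≤ V.valuation (π : L) := by
    have h2 : c = (t : L) * (π : L) := (congrArg Subtype.val ht).symm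
    rw [h2, map_mul]
    exact mul_le_of_le_one_left' ((V.valuation_le_one_iff _).2 t.2)
  rw [eq_top_iff]
  intro x _
  by_cases hx : x ∈ V
  · exact hVU hx
  have hx0 : x ≠ 0 := by
    rintro rfl
    exact hx V.zero_mem
  have hx' : x⁻¹ ∈ V := (V.mem_or_inv_mem x).resolve_left hx
  have hx'0 : (⟨x⁻¹, hx'⟩ : V) ≠ 0 := fun h => inv_ne_zero hx0 (congrArg Subtype.val h)
  obtain ⟨m, w, hw⟩ := IsDiscreteValuationRing.eq_unit_mul_pow_irreducible hx'0 hπ
  have hw' : x⁻¹ = ((w : V) : L) * (π : L) ^ m := congrArg Subtype.val hw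
  have hvw : V.valuation ((w : V) : L) = 1 := (V.valuation_eq_one_iff _).1 w.isUnit
  have hvx : V.valuation x⁻¹ = V.valuation (π : L) ^ m := by
    rw [hw', map_mul, map_pow, hvw, one_mul]
  have h1 : x * c ^ m ∈ V := by
    rw [← ValuationSubring.valuation_le_one_iff, map_mul, map_pow]
    have h2 : V.valuation c ^ m ≤ V.valuation x⁻¹ := by
      rw [hvx]
      gcongr
    calc V.valuation x * V.valuation c ^ m ≤ V.valuation x * V.valuation x⁻¹ := by gcongr
      _ = 1 := by rw [← map_mul, mul_inv_cancel₀ hx0, map_one]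
  have h3 : x * c ^ m ∈ U := hVU h1
  have h4 : (c ^ m)⁻¹ ∈ U := by
    rw [← ValuationSubring.valuation_le_one_iff, map_inv₀, map_pow, hcU, one_pow, inv_one]
  have h5 : x = x * c ^ m * (c ^ m)⁻¹ := by
    rw [mul_assoc, mul_inv_cancel₀ (pow_ne_zero _ hc0), mul_one]
  rw [h5]
  exact mul_mem h3 h4

/-- The value of a uniformizer is not divisible. -/
theorem val_irreducible_ne {L : Type u} [Field L] (V : ValuationSubring L)
    [IsDiscreteValuationRing V] (π : V) (hπ : Irreducible π) {ℓ : ℕ} (hℓ : 1 < ℓ) (c : L) :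
    V.valuation c ^ ℓ ≠ V.valuation (π : L) := by
  intro hc
  have hπ0 : (π : L) ≠ 0 := fun h => hπ.ne_zero (Subtype.ext h)
  have hπm : V.valuation (π : L) < 1 := by
    rw [← ValuationSubring.valuation_lt_one_iff, hπ.maximalIdeal_eq]
    exact Ideal.mem_span_singleton_self π
  have hc1 : V.valuation c < 1 := by
    by_contra h
    have := one_le_pow₀ (n := ℓ) (not_lt.1 h)
    rw [hc] at this
    exact absurd hπm (not_lt.2 this)
  have hcVm : c ∈ V := (V.valuation_le_one_iff _).1 hc1.le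
  have hcm : (⟨c, hcVm⟩ : V) ∈ IsLocalRing.maximalIdeal V :=
    (ValuationSubring.valuation_lt_one_iff V ⟨c, hcVm⟩).2 hc1
  rw [hπ.maximalIdeal_eq, Ideal.mem_span_singleton'] at hcm
  obtain ⟨t, ht⟩ := hcm
  have hcπ : V.valuation c ≤ V.valuation (π : L) := by
    have h2 : c = (t : L) * (π : L) := (congrArg Subtype.val ht).symm
    rw [h2, map_mul]
    exact mul_le_of_le_one_left' ((V.valuation_le_one_iff _).2 t.2)
  have h0 : 0 < V.valuation (π : L) := (Valuation.pos_iff _).2 hπ0
  have h1 : V.valuation c ^ ℓ ≤ V.valuation (π : L) ^ ℓ := by gcongr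
  have h2 : V.valuation (π : L) ^ ℓ < V.valuation (π : L) := pow_lt_self_of_lt_one₀ h0 hπm hℓ
  exact absurd hc (h1.trans_lt h2).ne

/-- Only finitely many discrete valuation rings of an NIP field have a residue field which is not
`ℓ`-divisible. -/
theorem finite_dvr {L : Type u} [Field L] [CompatibleRing L] (hL : NIP L) {ℓ : ℕ}
    (hℓ : ℓ.Prime) (hℓ0 : (ℓ : L) ≠ 0) :
    {V : ValuationSubring L | IsDiscreteValuationRing V ∧
      ∃ a : IsLocalRing.ResidueField V, ∀ c, c ^ ℓ ≠ a}.Finite := by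
  have hval : ∀ x : L, x ≠ 0 → (⊤ : ValuationSubring L).valuation x = 1 := by
    intro x hx
    refine le_antisymm ((ValuationSubring.valuation_le_one_iff _ _).2 trivial) ?_
    have h1 : (⊤ : ValuationSubring L).valuation x⁻¹ ≤ 1 :=
      (ValuationSubring.valuation_le_one_iff _ _).2 trivial
    rw [map_inv₀] at h1
    exact (inv_le_one₀ ((Valuation.pos_iff _).2 hx)).1 h1
  have hnle : ∀ V W : ValuationSubring L, IsDiscreteValuationRing V →
      IsDiscreteValuationRing W → V ≠ W → ¬ V ≤ W := by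
    intro V W hV hW hVW hle
    by_cases h : W ≤ V
    · exact hVW (le_antisymm hle h)
    · have h1 := eq_top_of_dvr V W hle h
      obtain ⟨π, hπ⟩ := IsDiscreteValuationRing.exists_irreducible W
      have hπ0 : (π : L) ≠ 0 := fun h => hπ.ne_zero (Subtype.ext h)
      have hπm : W.valuation (π : L) < 1 := by
        rw [← ValuationSubring.valuation_lt_one_iff, hπ.maximalIdeal_eq]
        exact Ideal.mem_span_singleton_self π
      subst h1
      rw [hval _ hπ0] at hπm
      exact lt_irrefl _ hπm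
  have htop : ∀ V W : ValuationSubring L, IsDiscreteValuationRing V →
      IsDiscreteValuationRing W → V ≠ W → V ⊔ W = ⊤ := fun V W hV hW hVW =>
    eq_top_of_dvr V _ le_sup_left fun h => hnle W V hW hV hVW.symm (le_sup_right.trans h)
  refine finite_of_box hL hℓ hℓ0 _ (fun V hV W hW hVW => ⟨hnle V W hV.1 hW.1 hVW, ?_⟩)
    fun V hV => ?_
  · rw [htop V W hV.1 hW.1 hVW, hval _ hℓ0]
  · obtain ⟨hd, a, ha⟩ := hV
    obtain ⟨x, rfl⟩ := IsLocalRing.residue_surjective a
    obtain ⟨π, hπ⟩ := IsDiscreteValuationRing.exists_irreducible V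
    have hπ0 : (π : L) ≠ 0 := fun h => hπ.ne_zero (Subtype.ext h)
    have hx0 : (x : L) ≠ 0 := fun h => by
      apply ha 0
      have : x = 0 := Subtype.ext h
      rw [this, map_zero, zero_pow hℓ.ne_zero]
    obtain ⟨r, hr, hbox⟩ := exists_radius (box0_of_value hℓ hℓ0 V x ha π
      (val_irreducible_ne V π hπ hℓ.one_lt))
    have hr0 : r ≠ 0 := by
      rcases hr with rfl | rfl
      · exact hx0
      · exact hπ0
    refine ⟨x, π, r, hx0, hπ0, hr0, fun W hW hVW => ?_, hbox⟩
    rw [htop V W hd hW.1 hVW]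
    exact ⟨hval _ hx0, hval _ hπ0, hval _ hr0⟩

end Pool.Agent.NNI
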