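import Pool.Agent.NNI.Val

/-!
# Incomparable valuation rings: mixed characteristic
-/

set_option autoImplicit false

namespace Pool.Agent.NNI

open Polynomial FirstOrder FirstOrder.Language FirstOrder.Ring Pool.Agent.NIPFields

universe u

/-- Common norms close to a given element. -/
theorem exists_common_val {L : Type u} [Field L] {ℓ : ℕ} [NeZero ℓ] (V : ValuationSubring L)
    (hℓ : (ℓ : L) ≠ 0) (n : ℕ) (a s : L) (ha : a ∈ V) (hs : s ∈ V) (hs0 : s ≠ 0) :
    ∃ N : ℕ, ∀ c : Fin n → L,
      (∀ j, V.valuation (c j - 1) < V.valuation (ℓ : L) ^ N * V.valuation s) →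
      ∃ f : L, (∀ j, f ∈ NS ℓ (c j)) ∧ V.valuation (f - a) < V.valuation s := by
  classical
  have hℓV : (ℓ : L) ∈ V := natCast_mem V ℓ
  have hv0 : 0 < V.valuation (ℓ : L) := (Valuation.pos_iff _).2 hℓ
  have hv1 : V.valuation (ℓ : L) ≤ 1 := (V.valuation_le_one_iff _).2 hℓV
  have hsv0 : 0 < V.valuation s := (Valuation.pos_iff _).2 hs0
  have hsv1 : V.valuation s ≤ 1 := (V.valuation_le_one_iff _).2 hs
  let O : Subring L :=
    { carrier := {x | ∃ N : ℕ, (ℓ : L) ^ N * x ∈ V}
      mul_mem' := by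
        rintro x y ⟨N, hN⟩ ⟨M, hM⟩
        refine ⟨N + M, ?_⟩
        have : (ℓ : L) ^ (N + M) * (x * y) = ((ℓ : L) ^ N * x) * ((ℓ : L) ^ M * y) := by ring
        rw [this]
        exact mul_mem hN hM
      one_mem' := ⟨0, by rw [pow_zero, one_mul]; exact V.one_mem⟩
      add_mem' := by
        rintro x y ⟨N, hN⟩ ⟨M, hM⟩
        refine ⟨N + M, ?_⟩
        have : (ℓ : L) ^ (N + M) * (x + y) =
            (ℓ : L) ^ M * ((ℓ : L) ^ N * x) + (ℓ : L) ^ N * ((ℓ : L) ^ M * y) := by ring
        rw [this]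
        exact add_mem (mul_mem (pow_mem hℓV _) hN) (mul_mem (pow_mem hℓV _) hM)
      zero_mem' := ⟨0, by rw [mul_zero]; exact V.zero_mem⟩
      neg_mem' := by
        rintro x ⟨N, hN⟩
        refine ⟨N, ?_⟩
        rw [mul_neg]
        exact neg_mem hN }
  let e : O := ⟨(ℓ : L)⁻¹, 1, by rw [pow_one, mul_inv_cancel₀ hℓ]; exact V.one_mem⟩
  let a' : O := ⟨a, 0, by rw [pow_zero, one_mul]; exact ha⟩
  let P : MvPolynomial (Fin n) O := Phi ℓ n (MvPolynomial (Fin n) O) (MvPolynomial.C e)
    MvPolynomial.X (MvPolynomial.C (a' - 1))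
  have hPe : ∀ c : Fin n → L, MvPolynomial.eval₂ O.subtype c P =
      Phi ℓ n L (ℓ : L)⁻¹ c (a - 1) := by
    intro c
    change MvPolynomial.eval₂Hom O.subtype c P = _
    simp only [P]
    rw [Phi_map n (MvPolynomial.eval₂Hom O.subtype c)]
    simp only [MvPolynomial.coe_eval₂Hom, MvPolynomial.eval₂_C, MvPolynomial.eval₂_X]
    rfl
  have hcoeff : ∀ d, ∃ N : ℕ, (ℓ : L) ^ N * ((P.coeff d : O) : L) ∈ V := fun d => (P.coeff d).2
  choose N hN using hcoeff
  let M := P.support.sup N
  refine ⟨M, fun c hc => ⟨Phi ℓ n L (ℓ : L)⁻¹ c (a - 1), fun j => ?_, ?_⟩⟩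
  · rw [← NSR_eq_NS]
    exact Phi_mem n _ c _ j
  · have h1 : Phi ℓ n L (ℓ : L)⁻¹ (fun _ => 1) (a - 1) = a := by
      rw [Phi_one n _ _ (inv_mul_cancel₀ hℓ) _ (fun _ => rfl)]
      ring
    obtain ⟨T, hT⟩ : ∃ T, T = V.valuation (ℓ : L) ^ M * V.valuation s := ⟨_, rfl⟩
    have hT0 : 0 < T := by
      rw [hT]
      exact mul_pos (pow_pos hv0 M) hsv0
    rw [← hT] at hc
    have hmon : ∀ (d : Fin n →₀ ℕ), V.valuation (∏ i, c i ^ d i - 1) < T := by
      intro d
      have hpow1 : T ≤ 1 := by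
        rw [hT]
        exact mul_le_one' (pow_le_one₀ zero_le hv1) hsv1
      have hcl : ∀ x y : L, V.valuation (x - 1) < T →
          V.valuation (y - 1) < T →
          V.valuation (x * y - 1) < T := by
        intro x y hx hy
        have h2 : x * y - 1 = (x - 1) * y + (y - 1) := by ring
        have h3 : V.valuation y ≤ 1 := by
          have h4 : y = (y - 1) + 1 := by ring
          rw [h4]
          exact (Valuation.map_add _ _ _).trans (max_le (hy.le.trans hpow1) (map_one _).le)
        rw [h2]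
        refine Valuation.map_add_lt _ ?_ hy
        rw [map_mul]
        exact (mul_le_of_le_one_right' h3).trans_lt hx
      have h0 : V.valuation ((1 : L) - 1) < T := by
        rw [sub_self, map_zero]
        exact hT0
      have hp : ∀ (x : L) (m : ℕ), V.valuation (x - 1) < T →
          V.valuation (x ^ m - 1) < T := by
        intro x m hx
        induction m with
        | zero => rw [pow_zero]; exact h0
        | succ m ih => rw [pow_succ]; exact hcl _ _ ih hx
      refine Finset.prod_induction (fun i => c i ^ d i)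
        (fun x => V.valuation (x - 1) < T) (fun x y hx hy => hcl x y hx hy)
        h0 fun i _ => hp _ _ (hc i)
    have h2 : Phi ℓ n L (ℓ : L)⁻¹ c (a - 1) - a =
        ∑ d ∈ P.support, ((P.coeff d : O) : L) * (∏ i, c i ^ d i - 1) := by
      conv_lhs => rw [← hPe, ← h1, ← hPe]
      rw [MvPolynomial.eval₂_eq', MvPolynomial.eval₂_eq', ← Finset.sum_sub_distrib]
      refine Finset.sum_congr rfl fun d _ => ?_
      simp only [one_pow, Finset.prod_const_one]
      show ((P.coeff d : O) : L) * _ - ((P.coeff d : O) : L) * 1 = _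
      ring
    rw [h2]
    refine Valuation.map_sum_lt _ hsv0.ne' fun d hd => ?_
    rw [map_mul]
    have h3 : V.valuation ((P.coeff d : O) : L) * V.valuation (ℓ : L) ^ M ≤ 1 := by
      have h4 := (V.valuation_le_one_iff _).2 (hN d)
      rw [map_mul, map_pow] at h4
      have h5 : V.valuation (ℓ : L) ^ M ≤ V.valuation (ℓ : L) ^ N d :=
        pow_le_pow_of_le_one zero_le hv1 (Finset.le_sup hd)
      calc V.valuation ((P.coeff d : O) : L) * V.valuation (ℓ : L) ^ M
          ≤ V.valuation ((P.coeff d : O) : L) * V.valuation (ℓ : L) ^ N d := by gcongr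
        _ = V.valuation (ℓ : L) ^ N d * V.valuation ((P.coeff d : O) : L) := mul_comm _ _
        _ ≤ 1 := h4
    by_cases h6 : V.valuation ((P.coeff d : O) : L) = 0
    · rw [h6, zero_mul]
      exact hsv0
    · refine (mul_lt_mul_of_pos_left (hmon d) (zero_lt_iff.2 h6)).trans_le ?_
      rw [hT, ← mul_assoc]
      exact mul_le_of_le_one_left' h3

/-- Approximation: close to `y` at `V j`, very close to `1` at the other valuation rings. -/
theorem exists_approx' {L : Type u} [Field L] {n : ℕ} (V : Fin n → ValuationSubring L)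
    (hinc : ∀ i j, i ≠ j → ¬ V i ≤ V j) (j : Fin n) (y r : L) (hy0 : y ≠ 0) (hr0 : r ≠ 0)
    (hr1 : (V j).valuation r ≤ 1)
    (hy : ∀ i, i ≠ j → (V j ⊔ V i).valuation y = 1)
    (hr : ∀ i, i ≠ j → (V j ⊔ V i).valuation r = 1) (t : Fin n → L)
    (ht0 : ∀ i, t i ≠ 0) (ht1 : ∀ i, (V i).valuation (t i) ≤ 1)
    (htW : ∀ i, i ≠ j → (V j ⊔ V i).valuation (t i) = 1) :
    ∃ b : L, (V j).valuation (b - y) < (V j).valuation r ∧
      ∀ i, i ≠ j → (V i).valuation (b - 1) < (V i).valuation (t i) := by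
  classical
  let a : L := if (V j).valuation y ≤ 1 then r else r / y
  have ha0 : a ≠ 0 := by
    simp only [a]
    split_ifs
    · exact hr0
    · exact div_ne_zero hr0 hy0
  have ha1 : (V j).valuation a ≤ 1 := by
    simp only [a]
    split_ifs with h
    · exact hr1
    · rw [map_div₀]
      exact div_le_one_of_le₀ (hr1.trans (not_le.1 h).le) zero_le
  let c : Fin n → L := fun i => if 1 ≤ (V i).valuation y then y else 1
  have hc1 : ∀ i, 1 ≤ (V i).valuation (c i) := by
    intro i
    simp only [c]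
    split_ifs with h
    · exact h
    · rw [map_one]
  have hcy : ∀ i, (V i).valuation y ≤ (V i).valuation (c i) := by
    intro i
    simp only [c]
    split_ifs with h
    · exact le_rfl
    · rw [map_one]
      exact (not_le.1 h).le
  have ht : ∀ i, 0 < (V i).valuation (t i) := fun i => (Valuation.pos_iff _).2 (ht0 i)
  have hct : ∀ i, 1 ≤ (V i).valuation (c i / t i) := by
    intro i
    rw [map_div₀, le_div_iff₀ (ht i), one_mul]
    exact (ht1 i).trans (hc1 i)
  obtain ⟨z, hz1, hz2⟩ := exists_small_large_finset' V j (Finset.univ.erase j)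
    (fun i hi => ⟨hinc j i (Finset.ne_of_mem_erase hi).symm, hinc i j (Finset.ne_of_mem_erase hi)⟩)
    a ha0 ha1
    (fun i hi => by
      simp only [a]
      split_ifs
      · exact hr i (Finset.ne_of_mem_erase hi)
      · rw [map_div₀, hr i (Finset.ne_of_mem_erase hi), hy i (Finset.ne_of_mem_erase hi),
          div_one])
    (fun i => c i / t i) (fun i _ => hct i)
    (fun i hi => by
      rw [map_div₀, htW i (Finset.ne_of_mem_erase hi), div_one]
      simp only [c]
      split_ifs
      · exact hy i (Finset.ne_of_mem_erase hi)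
      · exact map_one _)
  have hzj : (V j).valuation (1 + z) = 1 := by
    rw [Valuation.map_add_eq_of_lt_left _ (by rw [map_one]; exact hz1.trans_le ha1), map_one]
  have h10 : 1 + z ≠ 0 := by
    intro h
    rw [h, map_zero] at hzj
    exact zero_ne_one hzj
  refine ⟨(y + z) / (1 + z), ?_, fun i hi => ?_⟩
  · have h1 : (y + z) / (1 + z) - y = z * (1 - y) / (1 + z) := by
      field_simp
      ring
    rw [h1, map_div₀, hzj, div_one, map_mul]
    have hv0 : 0 < (V j).valuation y := (Valuation.pos_iff _).2 hy0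
    by_cases h : (V j).valuation y ≤ 1
    · have h2 : (V j).valuation (1 - y) ≤ 1 :=
        (Valuation.map_sub _ _ _).trans (max_le (map_one _).le h)
      have h3 : (V j).valuation z < (V j).valuation r := by
        have := hz1
        simp only [a, if_pos h] at this
        exact this
      exact (mul_le_of_le_one_right' h2).trans_lt h3
    · have h2 : (V j).valuation (1 - y) ≤ (V j).valuation y :=
        (Valuation.map_sub _ _ _).trans (max_le ((map_one _).le.trans (not_le.1 h).le) le_rfl)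
      have h3 : (V j).valuation z < (V j).valuation r / (V j).valuation y := by
        have := hz1
        simp only [a, if_neg h, map_div₀] at this
        exact this
      calc (V j).valuation z * (V j).valuation (1 - y)
          ≤ (V j).valuation z * (V j).valuation y := by gcongr
        _ < (V j).valuation r / (V j).valuation y * (V j).valuation y :=
          mul_lt_mul_of_pos_right h3 hv0
        _ = (V j).valuation r := div_mul_cancel₀ _ hv0.ne'
  · have hz := hz2 i (Finset.mem_erase.2 ⟨hi, Finset.mem_univ _⟩)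
    have h1z : 1 < (V i).valuation z := (hct i).trans_lt hz
    have h1 : (V i).valuation (1 + z) = (V i).valuation z := by
      rw [Valuation.map_add_eq_of_lt_right _ (by rw [map_one]; exact h1z)]
    have h2 : (y + z) / (1 + z) - 1 = (y - 1) / (1 + z) := by
      field_simp
      ring
    rw [h2, map_div₀, h1]
    have h3 : (V i).valuation (y - 1) ≤ (V i).valuation (c i) :=
      (Valuation.map_sub _ _ _).trans (max_le (hcy i) ((map_one _).le.trans (hc1 i)))
    rw [div_lt_iff₀ (zero_lt_one.trans h1z)]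
    rw [map_div₀, div_lt_iff₀ (ht i)] at hz
    refine h3.trans_lt ?_
    rw [mul_comm]
    exact hz

/-- Elements with a neighbourhood of non-norms. -/
def BoxAt (ℓ : ℕ) {L : Type u} [Field L] (V : ValuationSubring L) (x y r : L) : Prop :=
  ∀ f b, V.valuation (f - x) < V.valuation r → V.valuation (b - y) < V.valuation r → f ∉ NS ℓ b

/-- The residue classes of the elements consist of non-norms. -/
def Box0 (ℓ : ℕ) {L : Type u} [Field L] (V : ValuationSubring L) (x y : L) : Prop :=
  ∀ f b, V.valuation (f - x) < V.valuation x → V.valuation (b - y) < V.valuation y → f ∉ NS ℓ b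

/-- Existence of a radius. -/
theorem exists_radius {ℓ : ℕ} {L : Type u} [Field L] {V : ValuationSubring L} {x y : L}
    (h : Box0 ℓ V x y) : ∃ r, (r = x ∨ r = y) ∧ BoxAt ℓ V x y r := by
  rcases le_total (V.valuation x) (V.valuation y) with h1 | h1
  · exact ⟨x, Or.inl rfl, fun f b hf hb => h f b hf (hb.trans_le h1)⟩
  · exact ⟨y, Or.inr rfl, fun f b hf hb => h f b (hf.trans_le h1) hb⟩

/-- Common norms close to a given element. -/
theorem exists_common_mul {L : Type u} [Field L] {ℓ : ℕ} [NeZero ℓ] (V : ValuationSubring L)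
    (hℓ : (ℓ : L) ≠ 0) (n : ℕ) (x r : L) (hx0 : x ≠ 0) (hr0 : r ≠ 0)
    (hr1 : V.valuation r ≤ 1) :
    ∃ t : L, t ≠ 0 ∧ V.valuation t ≤ 1 ∧
      (∀ W : ValuationSubring L, W.valuation (ℓ : L) = 1 → W.valuation x = 1 →
        W.valuation r = 1 → W.valuation t = 1) ∧
      ∀ c : Fin n → L, (∀ j, V.valuation (c j - 1) < V.valuation t) →
        ∃ f : L, (∀ j, f ∈ NS ℓ (c j)) ∧ V.valuation (f - x) < V.valuation r := by
  have hv1 : V.valuation (ℓ : L) ≤ 1 := (V.valuation_le_one_iff _).2 (natCast_mem V ℓ)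
  have hrV : r ∈ V := (V.valuation_le_one_iff _).1 hr1
  by_cases hx : x ∈ V
  · obtain ⟨N, hN⟩ := exists_common_val V hℓ n x r hx hrV hr0
    refine ⟨(ℓ : L) ^ N * r, mul_ne_zero (pow_ne_zero _ hℓ) hr0, ?_, fun W h1 _ h2 => ?_,
      fun c hc => ?_⟩
    · rw [map_mul, map_pow]
      exact mul_le_one' (pow_le_one₀ zero_le hv1) hr1
    · rw [map_mul, map_pow, h1, h2, one_pow, one_mul]
    · exact hN c fun j => by
        have := hc j
        rwa [map_mul, map_pow] at this
  · have hx' : x⁻¹ ∈ V := (V.mem_or_inv_mem x).resolve_left hx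
    have hx'0 : x⁻¹ ≠ 0 := inv_ne_zero hx0
    have hvx : 0 < V.valuation x := (Valuation.pos_iff _).2 hx0
    have hvx' : V.valuation x⁻¹ ≤ 1 := (V.valuation_le_one_iff _).2 hx'
    have hsV : r * x⁻¹ * x⁻¹ ∈ V := mul_mem (mul_mem hrV hx') hx'
    have hs0 : r * x⁻¹ * x⁻¹ ≠ 0 := mul_ne_zero (mul_ne_zero hr0 hx'0) hx'0
    obtain ⟨N, hN⟩ := exists_common_val V hℓ n x⁻¹ (r * x⁻¹ * x⁻¹) hx' hsV hs0
    refine ⟨(ℓ : L) ^ N * (r * x⁻¹ * x⁻¹), mul_ne_zero (pow_ne_zero _ hℓ) hs0, ?_,
      fun W h1 h2 h3 => ?_, fun c hc => ?_⟩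
    · rw [map_mul, map_pow]
      exact mul_le_one' (pow_le_one₀ zero_le hv1) ((V.valuation_le_one_iff _).2 hsV)
    · rw [map_mul, map_pow, map_mul, map_mul, map_inv₀, h1, h2, h3, one_pow, one_mul, inv_one,
        one_mul, one_mul]
    · obtain ⟨f, hf1, hf2⟩ := hN c fun j => by
        have := hc j
        rwa [map_mul, map_pow] at this
      have hsx : V.valuation (r * x⁻¹ * x⁻¹) ≤ V.valuation x⁻¹ := by
        rw [map_mul, map_mul]
        exact mul_le_of_le_one_left' (mul_le_one' hr1 hvx')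
      have hvf : V.valuation f = V.valuation x⁻¹ := by
        have h1 : f = (f - x⁻¹) + x⁻¹ := by ring
        rw [h1, Valuation.map_add_eq_of_lt_right _ (hf2.trans_le hsx)]
      have hf0 : f ≠ 0 := by
        rintro rfl
        rw [map_zero] at hvf
        exact hx'0 ((Valuation.zero_iff _).1 hvf.symm)
      refine ⟨f⁻¹, fun j => NS_inv' (hf1 j), ?_⟩
      have h2 : f⁻¹ - x = (x⁻¹ - f) * (x * f⁻¹) := by
        field_simp
      have h3 : V.valuation (x⁻¹ - f) < V.valuation (r * x⁻¹ * x⁻¹) := by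
        rw [Valuation.map_sub_swap]
        exact hf2
      rw [map_mul, map_mul, map_inv₀] at h3
      rw [h2, map_mul, map_mul, map_inv₀ _ f, hvf, map_inv₀, inv_inv]
      calc V.valuation (x⁻¹ - f) * (V.valuation x * V.valuation x)
          < V.valuation r * (V.valuation x)⁻¹ * (V.valuation x)⁻¹ *
              (V.valuation x * V.valuation x) :=
            mul_lt_mul_of_pos_right h3 (mul_pos hvx hvx)
        _ = V.valuation r := by
            field_simp

/-- Pairwise incomparable valuation rings with open sets of non-norms. -/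
theorem shatE_of_box {L : Type u} [Field L] {ℓ : ℕ} (hℓ : ℓ.Prime) (hℓ0 : (ℓ : L) ≠ 0) (n : ℕ)
    (V : Fin n → ValuationSubring L) (hinc : ∀ i j, i ≠ j → ¬ V i ≤ V j)
    (hℓV : ∀ i j, i ≠ j → (V i ⊔ V j).valuation (ℓ : L) = 1) (x y r : Fin n → L)
    (hx0 : ∀ i, x i ≠ 0) (hx : ∀ i j, i ≠ j → (V i ⊔ V j).valuation (x i) = 1)
    (hy0 : ∀ i, y i ≠ 0) (hy : ∀ i j, i ≠ j → (V i ⊔ V j).valuation (y i) = 1)
    (hr0 : ∀ i, r i ≠ 0) (hr : ∀ i j, i ≠ j → (V i ⊔ V j).valuation (r i) = 1)
    (hbox : ∀ i, BoxAt ℓ (V i) (x i) (y i) (r i)) : ShatE ℓ L n := by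
  classical
  have : NeZero ℓ := ⟨hℓ.ne_zero⟩
  -- a small radius
  have hs : ∀ i, ∃ s : L, s ≠ 0 ∧ (V i).valuation s ≤ 1 ∧
      (V i).valuation s ≤ (V i).valuation (r i) ∧
      ∀ j, i ≠ j → (V i ⊔ V j).valuation s = 1 := by
    intro i
    rcases le_total ((V i).valuation (r i)) 1 with h | h
    · exact ⟨r i, hr0 i, h, le_rfl, hr i⟩
    · exact ⟨1, one_ne_zero, (map_one _).le, (map_one _).le.trans h, fun j _ => map_one _⟩
  choose s hs0 hs1 hsr hsW using hs
  choose t ht0 ht1 htW ht using fun i =>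
    exists_common_mul (ℓ := ℓ) (V i) hℓ0 n (x i) (s i) (hx0 i) (hs0 i) (hs1 i)
  choose b hb1 hb2 using fun j => exists_approx' V hinc j (y j) (s j) (hy0 j) (hs0 j) (hs1 j)
    (fun i hi => hy j i hi.symm) (fun i hi => hsW j i hi.symm) t ht0 ht1
    (fun i hi => by
      rw [sup_comm]
      exact htW i _ (hℓV i j hi) (hx i j hi) (hsW i j hi))
  have hf : ∀ i, ∃ f : L, (∀ j, j ≠ i → f ∈ NS ℓ (b j)) ∧
      (V i).valuation (f - x i) < (V i).valuation (s i) := by
    intro i
    obtain ⟨f, hf1, hf2⟩ := ht i (fun j => if j = i then 1 else b j) (fun j => by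
      by_cases h : j = i
      · rw [if_pos h, sub_self, map_zero]
        exact (Valuation.pos_iff _).2 (ht0 i)
      · rw [if_neg h]
        exact hb2 j i (Ne.symm h))
    refine ⟨f, fun j hj => ?_, hf2⟩
    have h1 := hf1 j
    rw [if_neg hj] at h1
    exact h1
  choose f hf1 hf2 using hf
  exact shatE_of_norms n b f (fun i => hbox i (f i) (b i) ((hf2 i).trans_le (hsr i))
    ((hb1 i).trans_le (hsr i))) hf1

/-- An NIP field does not have an infinite set of incomparable valuation rings with boxes. -/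
theorem finite_of_box {L : Type u} [Field L] [CompatibleRing L] (hL : NIP L) {ℓ : ℕ}
    (hℓ : ℓ.Prime) (hℓ0 : (ℓ : L) ≠ 0) (S : Set (ValuationSubring L))
    (hS : ∀ V ∈ S, ∀ W ∈ S, V ≠ W → ¬ V ≤ W ∧ (V ⊔ W).valuation (ℓ : L) = 1)
    (hbox : ∀ V ∈ S, ∃ x y r : L, x ≠ 0 ∧ y ≠ 0 ∧ r ≠ 0 ∧
      (∀ W ∈ S, V ≠ W → (V ⊔ W).valuation x = 1 ∧ (V ⊔ W).valuation y = 1 ∧
        (V ⊔ W).valuation r = 1) ∧ BoxAt ℓ V x y r) :
    S.Finite := by
  by_contra hinf
  obtain ⟨n, hn⟩ := hL.exists_not_shatE ℓ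
  obtain ⟨T, hTs, hcard⟩ := Set.Infinite.exists_subset_card_eq hinf n
  let e : Fin n ≃ T := (Fintype.equivFinOfCardEq (by rw [Fintype.card_coe, hcard])).symm
  have hmem : ∀ i, (e i : ValuationSubring L) ∈ S := fun i => hTs (e i).2
  have hne : ∀ i j, i ≠ j → (e i : ValuationSubring L) ≠ (e j : ValuationSubring L) :=
    fun i j hij h => hij (e.injective (Subtype.ext h))
  choose x y r hx0 hy0 hr0 hxy hb using fun i => hbox _ (hmem i)
  exact hn (shatE_of_box hℓ hℓ0 n (fun i => (e i : ValuationSubring L))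
    (fun i j hij => (hS _ (hmem i) _ (hmem j) (hne i j hij)).1)
    (fun i j hij => (hS _ (hmem i) _ (hmem j) (hne i j hij)).2) x y r hx0
    (fun i j hij => (hxy i _ (hmem j) (hne i j hij)).1) hy0
    (fun i j hij => (hxy i _ (hmem j) (hne i j hij)).2.1) hr0
    (fun i j hij => (hxy i _ (hmem j) (hne i j hij)).2.2) hb)

end Pool.Agent.NNI
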