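import Pool.Agent.NIPFields.Pattern
import Pool.Agent.NIPFields.Config

/-!
# Patterns of norms
-/

set_option autoImplicit false

namespace Pool.Agent.NNI

open Pool.Agent.NIPFields

universe u

/-- Elements `f i` which are norms for all `b j`, `j ≠ i`, but not for `b i`. -/
theorem shatE_of_norms {E : Type u} [Field E] {ℓ : ℕ} [NeZero ℓ] (n : ℕ) (b f : Fin n → E)
    (h1 : ∀ i, f i ∉ NS ℓ (b i)) (h2 : ∀ i j, j ≠ i → f i ∈ NS ℓ (b j)) : ShatE ℓ E n := by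
  classical
  have hf0 : ∀ i, f i ≠ 0 := by
    intro i h0
    exact h1 i (h0 ▸ zero_mem_NS _)
  have hprod : ∀ (i : Fin n) (s : Finset (Fin n)), i ∉ s → (∏ k ∈ s, f k) ∈ NS ℓ (b i) := by
    intro i s hi
    refine NS_prod s f _ (fun k hk => h2 k i ?_)
    rintro rfl
    exact hi hk
  refine ⟨b, fun J => ∏ k ∈ Jᶜ, f k, fun i J => ⟨fun h3 => ?_, fun h3 => ?_⟩⟩
  · by_contra hi
    have hi' : i ∈ Jᶜ := Finset.mem_compl.2 hi
    have h3 : (∏ k ∈ Jᶜ, f k) ∈ NS ℓ (b i) := h3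
    rw [← Finset.mul_prod_erase _ _ hi'] at h3
    have hP := hprod i (Jᶜ.erase i) (Finset.notMem_erase i _)
    have hP0 : (∏ k ∈ Jᶜ.erase i, f k) ≠ 0 := Finset.prod_ne_zero_iff.2 (fun k _ => hf0 k)
    apply h1 i
    have := NS_mul' h3 (NS_inv' hP)
    rwa [mul_assoc, mul_inv_cancel₀ hP0, mul_one] at this
  · exact hprod i Jᶜ (by simpa using h3)

/-- A common norm with a prescribed image under a ring homomorphism. -/
theorem exists_common {L : Type u} [Field L] {ℓ : ℕ} [NeZero ℓ] (A : Subring L)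
    (hℓ : (ℓ : L) ≠ 0) (hℓA : (ℓ : L)⁻¹ ∈ A) {k : Type u} [Field k] (φ : A →+* k) (n : ℕ)
    (c : Fin n → A) (a : A) :
    ∃ f : A, (∀ j, (f : L) ∈ NS ℓ (c j : L)) ∧
      φ f = Phi ℓ n k (ℓ : k)⁻¹ (fun j => φ (c j)) (φ a - 1) := by
  let e : A := ⟨(ℓ : L)⁻¹, hℓA⟩
  have he : (ℓ : A) * e = 1 := Subtype.ext (by
    show ((ℓ : A) : L) * (ℓ : L)⁻¹ = 1
    rw [Subring.coe_natCast]
    exact mul_inv_cancel₀ hℓ)
  have hφe : φ e = (ℓ : k)⁻¹ := by
    have h1 := congrArg φ he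
    rw [map_mul, map_natCast, map_one] at h1
    exact (eq_inv_of_mul_eq_one_right h1)
  refine ⟨Phi ℓ n A e c (a - 1), fun j => ?_, ?_⟩
  · have h1 : ((Phi ℓ n A e c (a - 1) : A) : L) =
        Phi ℓ n L (e : L) (fun j => (c j : L)) ((a - 1 : A) : L) :=
      Phi_map n A.subtype e c (a - 1)
    rw [h1, ← NSR_eq_NS]
    exact Phi_mem n _ (fun j => (c j : L)) _ j
  · rw [Phi_map n φ e c (a - 1), hφe, map_sub, map_one]

end Pool.Agent.NNI
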