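import Pool.Agent.NNI.Apx
import Pool.Agent.NNI.Pat

/-!
# Incomparable valuation rings
-/

set_option autoImplicit false

namespace Pool.Agent.NNI

open Pool.Agent.NIPFields

universe u

/-- Approximation: close to `y` at `V j`, close to `1` at the other valuation rings. -/
theorem exists_approx {L : Type u} [Field L] {n : ℕ} (V : Fin n → ValuationSubring L)
    (hinc : ∀ i j, i ≠ j → ¬ V i ≤ V j) (j : Fin n) (y : L) (hy0 : y ≠ 0)
    (hy : ∀ i, i ≠ j → (V j ⊔ V i).valuation y = 1) :
    ∃ b : L, (V j).valuation (b - y) < (V j).valuation y ∧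
      ∀ i, i ≠ j → (V i).valuation (b - 1) < 1 := by
  classical
  let a : L := if (V j).valuation y ≤ 1 then y else 1
  have ha0 : a ≠ 0 := by
    simp only [a]
    split_ifs
    · exact hy0
    · exact one_ne_zero
  have ha1 : (V j).valuation a ≤ 1 := by
    simp only [a]
    split_ifs with h
    · exact h
    · rw [map_one]
  let c : Fin n → L := fun i => if 1 ≤ (V i).valuation y then y else 1
  have hc1 : ∀ i, 1 ≤ (V i).valuation (c i) := by
    intro i
    simp only [c]
    split_ifs with h
    · exact h
    · rw [map_one]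
  have hcy : ∀ i, (V i).valuation y ≤ (V i).valuation (c i) := by
    intro i
    simp only [c]
    split_ifs with h
    · exact le_rfl
    · rw [map_one]
      exact (not_le.1 h).le
  obtain ⟨z, hz1, hz2⟩ := exists_small_large_finset' V j (Finset.univ.erase j)
    (fun i hi => ⟨hinc j i (Finset.ne_of_mem_erase hi).symm, hinc i j (Finset.ne_of_mem_erase hi)⟩)
    a ha0 ha1
    (fun i hi => by
      simp only [a]
      split_ifs
      · exact hy i (Finset.ne_of_mem_erase hi)
      · exact map_one _)
    c (fun i _ => hc1 i)
    (fun i hi => by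
      simp only [c]
      split_ifs
      · exact hy i (Finset.ne_of_mem_erase hi)
      · exact map_one _)
  have hzj : (V j).valuation (1 + z) = 1 := by
    rw [Valuation.map_add_eq_of_lt_left _ (by rw [map_one]; exact hz1.trans_le ha1), map_one]
  have h10 : 1 + z ≠ 0 := by
    intro h
    rw [h, map_zero] at hzj
    exact zero_ne_one hzj
  refine ⟨(y + z) / (1 + z), ?_, fun i hi => ?_⟩
  · have h1 : (y + z) / (1 + z) - y = z * (1 - y) / (1 + z) := by
      field_simp
      ring
    rw [h1, map_div₀, hzj, div_one, map_mul]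
    have hv0 : 0 < (V j).valuation y := (Valuation.pos_iff _).2 hy0
    by_cases h : (V j).valuation y ≤ 1
    · have h2 : (V j).valuation (1 - y) ≤ 1 :=
        (Valuation.map_sub _ _ _).trans (max_le (map_one _).le h)
      have h3 : (V j).valuation z < (V j).valuation y := by
        have := hz1
        simp only [a, if_pos h] at this
        exact this
      exact (mul_le_of_le_one_right' h2).trans_lt h3
    · have h2 : (V j).valuation (1 - y) ≤ (V j).valuation y :=
        (Valuation.map_sub _ _ _).trans (max_le ((map_one _).le.trans (not_le.1 h).le) le_rfl)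
      have h3 : (V j).valuation z < 1 := hz1.trans_le ha1
      calc (V j).valuation z * (V j).valuation (1 - y)
          ≤ (V j).valuation z * (V j).valuation y := by gcongr
        _ < 1 * (V j).valuation y := mul_lt_mul_of_pos_right h3 hv0
        _ = _ := one_mul _
  · have hz := hz2 i (Finset.mem_erase.2 ⟨hi, Finset.mem_univ _⟩)
    have h1z : 1 < (V i).valuation z := (hc1 i).trans_lt hz
    have h1 : (V i).valuation (1 + z) = (V i).valuation z := by
      rw [Valuation.map_add_eq_of_lt_right _ (by rw [map_one]; exact h1z)]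
    have h2 : (y + z) / (1 + z) - 1 = (y - 1) / (1 + z) := by
      field_simp
      ring
    rw [h2, map_div₀, h1]
    have h3 : (V i).valuation (y - 1) ≤ (V i).valuation (c i) :=
      (Valuation.map_sub _ _ _).trans (max_le (hcy i) ((map_one _).le.trans (hc1 i)))
    exact (div_lt_one₀ (zero_lt_one.trans h1z)).2 (h3.trans_lt hz)

/-- Pairwise incomparable valuation rings with open sets of non-norms. -/
theorem shatE_of_inc {L : Type u} [Field L] {ℓ : ℕ} (hℓ : ℓ.Prime) (n : ℕ)
    (V : Fin n → ValuationSubring L) (hinc : ∀ i j, i ≠ j → ¬ V i ≤ V j)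
    (hℓV : ∀ i, (V i).valuation (ℓ : L) = 1) (x y : Fin n → L) (hx : ∀ i, x i ∈ V i)
    (hy0 : ∀ i, y i ≠ 0) (hy : ∀ i j, i ≠ j → (V i ⊔ V j).valuation (y i) = 1)
    (hbox : ∀ i f b, (V i).valuation (f - x i) < 1 →
      (V i).valuation (b - y i) < (V i).valuation (y i) → f ∉ NS ℓ b) : ShatE ℓ L n := by
  classical
  have : NeZero ℓ := ⟨hℓ.ne_zero⟩
  choose b hb1 hb2 using fun j => exists_approx V hinc j (y j) (hy0 j)
    (fun i hi => hy j i hi.symm)
  have hf : ∀ i, ∃ f : L, (∀ j, j ≠ i → f ∈ NS ℓ (b j)) ∧ (V i).valuation (f - x i) < 1 := by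
    intro i
    have hℓ0 : (ℓ : L) ≠ 0 := by
      intro h
      have := hℓV i
      rw [h, map_zero] at this
      exact zero_ne_one this
    have hinv : (ℓ : L)⁻¹ ∈ (V i).toSubring := by
      show (ℓ : L)⁻¹ ∈ V i
      rw [← ValuationSubring.valuation_le_one_iff, map_inv₀, hℓV i, inv_one]
    have hbV : ∀ j, j ≠ i → b j ∈ V i := by
      intro j hj
      have h1 : b j = (b j - 1) + 1 := by ring
      rw [h1]
      exact add_mem (((V i).valuation_le_one_iff _).1 (hb2 j i hj.symm).le) (V i).one_mem
    let c : Fin n → (V i).toSubring := fun j => if h : j = i then 1 else ⟨b j, hbV j h⟩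
    obtain ⟨f, hf1, hf2⟩ := exists_common (V i).toSubring hℓ0 hinv
      (k := IsLocalRing.ResidueField (V i)) (IsLocalRing.residue (V i)) n c ⟨x i, hx i⟩
    refine ⟨f, fun j hj => ?_, ?_⟩
    · have h1 := hf1 j
      simp only [c, dif_neg hj] at h1
      exact h1
    · have hc : (fun j => IsLocalRing.residue (V i) (c j)) = fun _ => 1 := by
        funext j
        by_cases h : j = i
        · simp only [c, dif_pos h]
          exact map_one _
        · simp only [c, dif_neg h]
          have h1 : IsLocalRing.residue (V i) (⟨b j, hbV j h⟩ - 1) = 0 := by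
            rw [IsLocalRing.residue_eq_zero_iff, ValuationSubring.valuation_lt_one_iff]
            exact hb2 j i (Ne.symm h)
          rw [map_sub, map_one, sub_eq_zero] at h1
          exact h1
      have hk : ((ℓ : IsLocalRing.ResidueField (V i)))⁻¹ * ℓ = 1 := by
        apply inv_mul_cancel₀
        intro h0
        have h1 : IsLocalRing.residue (V i) (ℓ : V i) = 0 := by
          rw [map_natCast]
          exact h0
        rw [IsLocalRing.residue_eq_zero_iff, ValuationSubring.valuation_lt_one_iff] at h1
        have h2 : (V i).valuation (ℓ : L) < 1 := h1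
        rw [hℓV i] at h2
        exact lt_irrefl _ h2
      rw [hc, Phi_one n _ _ hk _ (fun _ => rfl), add_sub_cancel] at hf2
      let g : V i := f
      have h2 : IsLocalRing.residue (V i) (g - ⟨x i, hx i⟩) = 0 := by
        rw [map_sub, sub_eq_zero]
        exact hf2
      rw [IsLocalRing.residue_eq_zero_iff, ValuationSubring.valuation_lt_one_iff] at h2
      exact h2
  choose f hf1 hf2 using hf
  exact shatE_of_norms n b f (fun i => hbox i (f i) (b i) (hf2 i) (hb1 i)) hf1

end Pool.Agent.NNI
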