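import Pool.Agent.NIPFields.NormRing

/-!
# Residual non-norms
-/

set_option autoImplicit false

namespace Pool.Agent.NNI

open Polynomial Pool.Agent.NIPFields

universe u v

/-- The norm form is anisotropic if `b` is no `ℓ`-th power. -/
theorem nmat_ne_zero {k : Type u} [Field k] {ℓ : ℕ} (hℓ : ℓ.Prime) (b : k)
    (hb : ∀ c, c ^ ℓ ≠ b) (w : Fin ℓ → k) (hw : w ≠ 0) : (nmat ℓ b w).det ≠ 0 := by
  have : NeZero ℓ := ⟨hℓ.ne_zero⟩
  have hirr : Irreducible (X ^ ℓ - C b) := X_pow_sub_C_irreducible_of_prime hℓ hb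
  have : Fact (Irreducible (X ^ ℓ - C b)) := ⟨hirr⟩
  rw [← norm_eq_det' (adjBasis ℓ b) _ b (adjBasis_apply b) (adj_root_pow b) w]
  rw [Ne, Algebra.norm_eq_zero_iff]
  intro h
  apply hw
  funext i
  have h1 := (Fintype.linearIndependent_iff.1 (adjBasis ℓ b).linearIndependent) w h i
  exact h1

/-- The norm form is homogeneous. -/
theorem nmat_smul {k : Type u} [CommRing k] {ℓ : ℕ} (b c : k) (w : Fin ℓ → k) :
    (nmat ℓ b (fun i => c * w i)).det = c ^ ℓ * (nmat ℓ b w).det := by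
  have h : nmat ℓ b (fun i => c * w i) = c • nmat ℓ b w := by
    ext r s
    simp only [nmat, Matrix.of_apply, Matrix.smul_apply, smul_eq_mul]
    ring
  rw [h, Matrix.det_smul, Fintype.card_fin]

/-- Non-norms at a place are non-norms. -/
theorem not_mem_NS_place {L : Type u} [Field L] {k : Type v} [Field k] {ℓ : ℕ} (hℓ : ℓ.Prime)
    (V : ValuationSubring L) (φ : V →+* k) (hφ : IsLocalHom φ) (f b : V) (hf0 : φ f ≠ 0)
    (hb : ∀ c, c ^ ℓ ≠ φ b) (h : φ f ∉ NS ℓ (φ b)) : (f : L) ∉ NS ℓ (b : L) := by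
  rintro ⟨z, hz⟩
  have : NeZero ℓ := ⟨hℓ.ne_zero⟩
  have hfL : (f : L) ≠ 0 := by
    intro h0
    apply hf0
    have : f = 0 := Subtype.ext h0
    rw [this, map_zero]
  obtain ⟨i, hi⟩ := Finite.exists_max (fun i => V.valuation (z i))
  have hzi : z i ≠ 0 := by
    intro h0
    apply hfL
    rw [hz]
    have hz0 : z = fun j => (0 : L) * (1 : L) := by
      funext j
      have h1 := hi j
      rw [h0, map_zero] at h1
      rw [zero_mul]
      exact (Valuation.zero_iff _).1 (le_antisymm h1 zero_le)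
    rw [hz0, nmat_smul, zero_pow hℓ.ne_zero, zero_mul]
  have hwV : ∀ j, z j / z i ∈ V := fun j => by
    rw [← ValuationSubring.valuation_le_one_iff, map_div₀]
    exact (div_le_one₀ ((Valuation.pos_iff _).2 hzi)).2 (hi j)
  let w : Fin ℓ → V := fun j => ⟨z j / z i, hwV j⟩
  have hwi : w i = 1 := Subtype.ext (div_self hzi)
  have hzw : z = fun j => z i * (w j : L) := by
    funext j
    exact (mul_div_cancel₀ _ hzi).symm
  -- the norm of `w` is a unit
  have hN : φ (nmat ℓ b w).det = (nmat ℓ (φ b) (fun j => φ (w j))).det := nmat_map ℓ φ b w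
  have hN0 : φ (nmat ℓ b w).det ≠ 0 := by
    rw [hN]
    refine nmat_ne_zero hℓ _ hb _ fun h0 => ?_
    have h1 := congrFun h0 i
    rw [Pi.zero_apply, hwi, map_one] at h1
    exact one_ne_zero h1
  have hunit : ∀ x : V, φ x ≠ 0 → IsUnit x := fun x hx =>
    hφ.map_nonunit x (isUnit_iff_ne_zero.2 hx)
  have hfu : IsUnit f := hunit f hf0
  have hNu : IsUnit (nmat ℓ b w).det := hunit _ hN0
  have hmapL : (((nmat ℓ b w).det : V) : L) = (nmat ℓ (b : L) (fun j => (w j : L))).det :=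
    nmat_map ℓ V.subtype b w
  have heq : (f : L) = z i ^ ℓ * (((nmat ℓ b w).det : V) : L) := by
    rw [hz, hmapL]
    conv_lhs => rw [hzw]
    rw [nmat_smul]
  have hvf : V.valuation (f : L) = 1 := (V.valuation_eq_one_iff f).1 hfu
  have hvN : V.valuation (((nmat ℓ b w).det : V) : L) = 1 := (V.valuation_eq_one_iff _).1 hNu
  have hvz : V.valuation (z i) = 1 := by
    rw [heq, map_mul, map_pow, hvN, mul_one] at hvf
    exact (pow_eq_one_iff_of_nonneg zero_le hℓ.ne_zero).1 hvf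
  have hziV : z i ∈ V := by
    rw [← ValuationSubring.valuation_le_one_iff, hvz]
  have heqV : f = (⟨z i, hziV⟩ : V) ^ ℓ * (nmat ℓ b w).det := Subtype.ext heq
  apply h
  refine ⟨fun j => φ ⟨z i, hziV⟩ * φ (w j), ?_⟩
  rw [nmat_smul, ← hN, ← map_pow, ← map_mul, ← heqV]

end Pool.Agent.NNI
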