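import Pool.Agent.NNI.Pat
import Pool.Agent.NNI.Norm
import Pool.Agent.NIPFields.Main

/-!
# An NIP field has only finitely many real places
-/

set_option autoImplicit false

namespace Pool.Agent.NNI

open FirstOrder FirstOrder.Language FirstOrder.Ring Pool.Agent.NIPFields

universe u

section place

variable {L : Type u} [Field L] (V : ValuationSubring L) (φ : V →+* ℝ) (hφ : IsLocalHom φ)

include hφ

theorem unit_of {x : V} (hx : φ x ≠ 0) : IsUnit x :=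
  hφ.map_nonunit x (isUnit_iff_ne_zero.2 hx)

theorem zero_of_inv {x : L} (hx : x ∉ V) (hx' : x⁻¹ ∈ V) : φ ⟨x⁻¹, hx'⟩ = 0 := by
  by_contra h
  have h1 := unit_of V φ hφ h
  obtain ⟨t, ht⟩ := h1.exists_right_inv
  have h2 : x⁻¹ * (t : L) = 1 := congrArg Subtype.val ht
  apply hx
  have h3 : (t : L) = x := by
    have hx0 : x ≠ 0 := by
      rintro rfl
      exact hx V.zero_mem
    field_simp at h2
    exact h2
  rw [← h3]
  exact t.2

/-- Quotients by elements with a nonzero image. -/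
theorem div_mem {x y : V} (hy : φ y ≠ 0) :
    ∃ h : (x : L) / (y : L) ∈ V, φ ⟨(x : L) / (y : L), h⟩ = φ x / φ y := by
  obtain ⟨t, ht⟩ := (unit_of V φ hφ hy).exists_right_inv
  have h2 : (y : L) * (t : L) = 1 := congrArg Subtype.val ht
  have hy0 : (y : L) ≠ 0 := left_ne_zero_of_mul_eq_one h2
  have h3 : (x : L) / (y : L) = ((x * t : V) : L) := by
    rw [div_eq_iff hy0]
    show (x : L) = (x : L) * (t : L) * (y : L)
    linear_combination (-(x : L)) * h2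
  refine ⟨by rw [h3]; exact (x * t).2, ?_⟩
  have h4 : (⟨(x : L) / (y : L), by rw [h3]; exact (x * t).2⟩ : V) = x * t := Subtype.ext h3
  rw [h4, map_mul, eq_div_iff hy, mul_assoc, ← map_mul, mul_comm t y, ht, map_one, mul_one]

theorem one_add_sq_mem (x : L) (hx : x ∈ V) :
    ∃ (h : 1 / (1 + x ^ 2) ∈ V) (h' : x / (1 + x ^ 2) ∈ V),
      φ ⟨_, h⟩ = 1 / (1 + φ ⟨x, hx⟩ ^ 2) ∧ φ ⟨_, h'⟩ = φ ⟨x, hx⟩ / (1 + φ ⟨x, hx⟩ ^ 2) := by
  have h1 : φ (1 + ⟨x, hx⟩ ^ 2) = 1 + φ ⟨x, hx⟩ ^ 2 := by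
    rw [map_add, map_one, map_pow]
  have h0 : φ (1 + ⟨x, hx⟩ ^ 2) ≠ 0 := by
    rw [h1]
    positivity
  obtain ⟨h2, h3⟩ := div_mem V φ hφ (x := 1) h0
  obtain ⟨h4, h5⟩ := div_mem V φ hφ (x := ⟨x, hx⟩) h0
  rw [h1] at h3 h5
  rw [map_one] at h3
  exact ⟨h2, h4, h3, h5⟩

theorem one_add_sq_mem' (x : L) (hx : x ∉ V) :
    ∃ (h : 1 / (1 + x ^ 2) ∈ V) (h' : x / (1 + x ^ 2) ∈ V), φ ⟨_, h⟩ = 0 ∧ φ ⟨_, h'⟩ = 0 := by
  have hx0 : x ≠ 0 := by
    rintro rfl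
    exact hx V.zero_mem
  have hx' : x⁻¹ ∈ V := (V.mem_or_inv_mem x).resolve_left hx
  have hz := zero_of_inv V φ hφ hx hx'
  obtain ⟨h1, h2, h3, h4⟩ := one_add_sq_mem V φ hφ x⁻¹ hx'
  rw [hz] at h3 h4
  have e1 : x / (1 + x ^ 2) = x⁻¹ / (1 + x⁻¹ ^ 2) := by
    have h5 : (1 + x⁻¹ ^ 2) * x ^ 2 = 1 + x ^ 2 := by
      field_simp
      ring
    by_cases h6 : 1 + x ^ 2 = 0
    · have h7 : 1 + x⁻¹ ^ 2 = 0 := by
        rw [h6] at h5
        exact (mul_eq_zero.1 h5).resolve_right (pow_ne_zero _ hx0)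
      rw [h6, h7, div_zero, div_zero]
    · have h7 : 1 + x⁻¹ ^ 2 ≠ 0 := by
        intro h8
        rw [h8, zero_mul] at h5
        exact h6 h5.symm
      rw [div_eq_div_iff h6 h7, ← h5]
      field_simp
  have e2 : 1 / (1 + x ^ 2) = x⁻¹ * (x⁻¹ / (1 + x⁻¹ ^ 2)) := by
    rw [← e1]
    field_simp
  refine ⟨by rw [e2]; exact mul_mem hx' h2, by rw [e1]; exact h2, ?_, ?_⟩
  · have h5 : (⟨1 / (1 + x ^ 2), by rw [e2]; exact mul_mem hx' h2⟩ : V) =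
        ⟨x⁻¹, hx'⟩ * ⟨_, h2⟩ := Subtype.ext e2
    rw [h5, map_mul, hz, zero_mul]
  · have h5 : (⟨x / (1 + x ^ 2), by rw [e1]; exact h2⟩ : V) = ⟨_, h2⟩ := Subtype.ext e1
    rw [h5, h4]
    norm_num

end place

end Pool.Agent.NNI
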