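import Pool.Agent.NNI.RP

/-!
# An NIP field has only finitely many real places: separation
-/

set_option autoImplicit false

namespace Pool.Agent.NNI

open FirstOrder FirstOrder.Language FirstOrder.Ring Pool.Agent.NIPFields

universe u

variable {L : Type u} [Field L]

/-- Elements which are finite at all real places. -/
def Fin' (x : L) : Prop := ∀ (W : ValuationSubring L) (ψ : W →+* ℝ), IsLocalHom ψ → x ∈ W

theorem fin_u (x : L) : Fin' (1 / (1 + x ^ 2)) := by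
  intro W ψ hψ
  by_cases hx : x ∈ W
  · exact (one_add_sq_mem W ψ hψ x hx).1
  · exact (one_add_sq_mem' W ψ hψ x hx).1

theorem fin_w (x : L) : Fin' (x / (1 + x ^ 2)) := by
  intro W ψ hψ
  by_cases hx : x ∈ W
  · exact (one_add_sq_mem W ψ hψ x hx).2.1
  · exact (one_add_sq_mem' W ψ hψ x hx).2.1

theorem exists_sep {V V' : ValuationSubring L} {φ : V →+* ℝ} {φ' : V' →+* ℝ}
    (hφ : IsLocalHom φ) (hφ' : IsLocalHom φ')
    (h : (⟨V, φ⟩ : Σ V : ValuationSubring L, V →+* ℝ) ≠ ⟨V', φ'⟩) :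
    ∃ x : L, Fin' x ∧ ∀ (hx : x ∈ V) (hx' : x ∈ V'), φ ⟨x, hx⟩ ≠ φ' ⟨x, hx'⟩ := by
  by_contra hcon
  push Not at hcon
  apply h
  have key : ∀ x : L, (x ∈ V ↔ x ∈ V') := by
    intro x
    obtain ⟨h1, h2, h3⟩ := hcon _ (fin_u x)
    constructor
    · intro hx
      by_contra hx'
      obtain ⟨_, _, h4, _⟩ := one_add_sq_mem V φ hφ x hx
      obtain ⟨_, _, h5, _⟩ := one_add_sq_mem' V' φ' hφ' x hx'
      rw [h4, h5] at h3
      have h6 : (0 : ℝ) < 1 / (1 + φ ⟨x, hx⟩ ^ 2) := by positivity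
      rw [h3] at h6
      exact lt_irrefl _ h6
    · intro hx
      by_contra hx'
      obtain ⟨_, _, h4, _⟩ := one_add_sq_mem V' φ' hφ' x hx
      obtain ⟨_, _, h5, _⟩ := one_add_sq_mem' V φ hφ x hx'
      rw [h4, h5] at h3
      have h6 : (0 : ℝ) < 1 / (1 + φ' ⟨x, hx⟩ ^ 2) := by positivity
      rw [← h3] at h6
      exact lt_irrefl _ h6
  have hV : V = V' := SetLike.ext key
  subst hV
  congr 1
  ext ⟨x, hx⟩
  obtain ⟨h1, h2, h3⟩ := hcon _ (fin_u x)
  obtain ⟨h1', h2', h3'⟩ := hcon _ (fin_w x)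
  obtain ⟨_, _, h4, h5⟩ := one_add_sq_mem V φ hφ x hx
  obtain ⟨_, _, h6, h7⟩ := one_add_sq_mem V φ' hφ' x hx
  rw [h4, h6] at h3
  rw [h5, h7] at h3'
  have h8 : (1 + φ ⟨x, hx⟩ ^ 2) ≠ 0 := by positivity
  have h9 : (1 + φ' ⟨x, hx⟩ ^ 2) ≠ 0 := by positivity
  have h10 : 1 + φ' ⟨x, hx⟩ ^ 2 = 1 + φ ⟨x, hx⟩ ^ 2 := by
    rw [div_eq_div_iff h8 h9, one_mul, one_mul] at h3
    exact h3
  rw [div_eq_div_iff h8 h9, h10] at h3'
  exact mul_right_cancel₀ h8 h3'

/-- Real homomorphisms of a ring: an element small at one, large at another. -/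
theorem exists_pair_real {H : Type*} [CommRing H] [Algebra ℚ H] {ι : Type*} (ψ : ι → H →+* ℝ)
    (i j : ι) (h : H) (hh : ψ i h ≠ ψ j h) (δ M : ℝ) (hδ : 0 < δ) :
    ∃ z : H, (∀ k, 0 ≤ ψ k z) ∧ ψ j z < δ ∧ M < ψ i z := by
  have hrat : ∀ k (q : ℚ), ψ k (algebraMap ℚ H q) = q := fun k q => by
    have : (ψ k).comp (algebraMap ℚ H) = algebraMap ℚ ℝ := Subsingleton.elim _ _
    exact congrFun (congrArg DFunLike.coe this) q
  have hg : 0 < |ψ i h - ψ j h| := abs_pos.2 (sub_ne_zero.2 hh)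
  obtain ⟨N, hN⟩ := exists_nat_gt (4 * M / |ψ i h - ψ j h| ^ 2)
  have hN0 : (0 : ℝ) < N + 1 := by positivity
  have hN' : M < (N + 1 : ℝ) * (|ψ i h - ψ j h| / 2) ^ 2 := by
    rw [div_lt_iff₀ (by positivity)] at hN
    nlinarith [pow_pos hg 2]
  let ε : ℝ := min (|ψ i h - ψ j h| / 2) (min 1 (δ / (N + 1) / 2))
  have hε : 0 < ε := lt_min (by positivity) (lt_min one_pos (by positivity))
  have hε1 : ε ≤ |ψ i h - ψ j h| / 2 := min_le_left _ _
  have hε2 : ε ≤ 1 := (min_le_right _ _).trans (min_le_left _ _)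
  have hε3 : ε ≤ δ / (N + 1) / 2 := (min_le_right _ _).trans (min_le_right _ _)
  obtain ⟨q, hq1, hq2⟩ := exists_rat_btwn (show ψ j h - ε < ψ j h by linarith)
  have hval : ∀ k, ψ k ((N + 1 : ℕ) * (h - algebraMap ℚ H q) ^ 2) =
      (N + 1 : ℝ) * (ψ k h - q) ^ 2 := by
    intro k
    rw [map_mul, map_pow, map_sub, hrat, map_natCast]
    push_cast
    ring
  refine ⟨(N + 1 : ℕ) * (h - algebraMap ℚ H q) ^ 2, fun k => ?_, ?_, ?_⟩
  · rw [hval]
    positivity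
  · rw [hval]
    have h1 : (ψ j h - q) ^ 2 ≤ ε := by nlinarith
    have h2 : (N + 1 : ℝ) * ε ≤ δ / 2 := by
      calc (N + 1 : ℝ) * ε ≤ (N + 1 : ℝ) * (δ / (N + 1) / 2) := by gcongr
        _ = δ / 2 := by field_simp
    calc (N + 1 : ℝ) * (ψ j h - q) ^ 2 ≤ (N + 1 : ℝ) * ε := by gcongr
      _ < δ := by linarith
  · rw [hval]
    refine hN'.trans_le ?_
    have h1 : |ψ i h - ψ j h| / 2 ≤ |ψ i h - q| := by
      have h2 : |ψ i h - ψ j h| ≤ |ψ i h - q| + |(q : ℝ) - ψ j h| := abs_sub_le _ _ _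
      have h3 : |(q : ℝ) - ψ j h| ≤ ε := by
        rw [abs_le]
        constructor <;> linarith
      linarith
    have h4 : (|ψ i h - ψ j h| / 2) ^ 2 ≤ |ψ i h - q| ^ 2 := by gcongr
    rw [sq_abs] at h4
    gcongr

/-- Real homomorphisms of a ring: an element small at one, large at the others. -/
theorem exists_small_large_real {H : Type*} [CommRing H] [Algebra ℚ H] {n : ℕ}
    (ψ : Fin n → H →+* ℝ) (hsep : ∀ i j, i ≠ j → ∃ h, ψ i h ≠ ψ j h) (j : Fin n)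
    (δ M : ℝ) (hδ : 0 < δ) :
    ∃ z : H, (∀ i, 0 ≤ ψ i z) ∧ ψ j z < δ ∧ ∀ i, i ≠ j → M < ψ i z := by
  classical
  have hn : (0 : ℝ) < n + 1 := by positivity
  have h1 : ∀ i, i ≠ j → ∃ z : H, (∀ k, 0 ≤ ψ k z) ∧ ψ j z < δ / (n + 1) ∧ M < ψ i z := by
    intro i hi
    obtain ⟨h, hh⟩ := hsep i j hi
    exact exists_pair_real ψ i j h hh _ M (by positivity)
  choose! z hz1 hz2 hz3 using h1
  refine ⟨∑ i ∈ Finset.univ.erase j, z i, fun k => ?_, ?_, fun i hi => ?_⟩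
  · rw [map_sum]
    exact Finset.sum_nonneg fun i hi => hz1 i (Finset.ne_of_mem_erase hi) k
  · rw [map_sum]
    calc ∑ i ∈ Finset.univ.erase j, ψ j (z i)
        ≤ ∑ _i ∈ Finset.univ.erase j, δ / (n + 1) :=
          Finset.sum_le_sum fun i hi => (hz2 i (Finset.ne_of_mem_erase hi)).le
      _ = (Finset.univ.erase j).card * (δ / (n + 1)) := by
          rw [Finset.sum_const, nsmul_eq_mul]
      _ ≤ n * (δ / (n + 1)) := by
          gcongr
          have := Finset.card_le_card (Finset.erase_subset j Finset.univ)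
          rwa [Finset.card_univ, Fintype.card_fin] at this
      _ < δ := by
          rw [mul_div_assoc', div_lt_iff₀ hn]
          nlinarith
  · rw [map_sum]
    calc M < ψ i (z i) := hz3 i hi
      _ ≤ _ := Finset.single_le_sum (f := fun k => ψ i (z k))
        (fun k hk => hz1 k (Finset.ne_of_mem_erase hk) i)
        (Finset.mem_erase.2 ⟨hi, Finset.mem_univ _⟩)

end Pool.Agent.NNI
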