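import Pool.Agent.NNI.Inc
import Pool.Agent.NNI.Norm
import Pool.Agent.NIPFields.NonNorm
import Pool.Agent.NIPFields.Main

/-!
# An NIP field has few incomparable valuation rings with a non-trivial norm relation
-/

set_option autoImplicit false

namespace Pool.Agent.NNI

open Polynomial FirstOrder FirstOrder.Language FirstOrder.Ring Pool.Agent.NIPFields

universe u

/-- Elements with a neighbourhood of non-norms which are units in the proper overrings. -/
def Box (ℓ : ℕ) {L : Type u} [Field L] (V : ValuationSubring L) : Prop :=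
  ∃ x y : L, x ∈ V ∧ y ≠ 0 ∧ (∀ W : ValuationSubring L, V ≤ W → ¬ W ≤ V → W.valuation y = 1) ∧
    ∀ f b, V.valuation (f - x) < 1 → V.valuation (b - y) < V.valuation y → f ∉ NS ℓ b

theorem box_of_residue {L : Type u} [Field L] {ℓ : ℕ} (hℓ : ℓ.Prime) (V : ValuationSubring L)
    (a b : IsLocalRing.ResidueField V) (hb : ∀ c, c ^ ℓ ≠ b) (ha : a ∉ NS ℓ b) : Box ℓ V := by
  have : NeZero ℓ := ⟨hℓ.ne_zero⟩
  obtain ⟨x, rfl⟩ := IsLocalRing.residue_surjective a
  obtain ⟨y, rfl⟩ := IsLocalRing.residue_surjective b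
  have hy0 : IsLocalRing.residue V y ≠ 0 := fun h => by
    apply hb 0
    rw [h, zero_pow hℓ.ne_zero]
  have hx0 : IsLocalRing.residue V x ≠ 0 := fun h => by
    apply ha
    rw [h]
    exact zero_mem_NS _
  have hyu : IsUnit y := (IsLocalRing.residue_ne_zero_iff_isUnit y).1 hy0
  have hy1 : V.valuation (y : L) = 1 := (V.valuation_eq_one_iff y).1 hyu
  have hyL : (y : L) ≠ 0 := by
    intro h
    rw [h, map_zero] at hy1
    exact zero_ne_one hy1
  refine ⟨x, y, x.2, hyL, fun W hVW _ => ?_, fun f b hf hb' => ?_⟩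
  · refine le_antisymm ((W.valuation_le_one_iff _).2 (hVW y.2)) (not_lt.1 fun h => ?_)
    exact absurd hy1 (lt_one_of_le hVW h).ne
  · rw [hy1] at hb'
    have hfV : f ∈ V := by
      have h1 : f = (f - x) + x := by ring
      rw [h1]
      exact add_mem ((V.valuation_le_one_iff _).1 hf.le) x.2
    have hbV : b ∈ V := by
      have h1 : b = (b - y) + y := by ring
      rw [h1]
      exact add_mem ((V.valuation_le_one_iff _).1 hb'.le) y.2
    have hfr : IsLocalRing.residue V ⟨f, hfV⟩ = IsLocalRing.residue V x := by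
      rw [← sub_eq_zero, ← map_sub, IsLocalRing.residue_eq_zero_iff,
        ValuationSubring.valuation_lt_one_iff]
      exact hf
    have hbr : IsLocalRing.residue V ⟨b, hbV⟩ = IsLocalRing.residue V y := by
      rw [← sub_eq_zero, ← map_sub, IsLocalRing.residue_eq_zero_iff,
        ValuationSubring.valuation_lt_one_iff]
      exact hb'
    refine not_mem_NS_place hℓ V (IsLocalRing.residue V) inferInstance ⟨f, hfV⟩ ⟨b, hbV⟩ ?_ ?_ ?_
    · rw [hfr]
      exact hx0
    · rw [hbr]
      exact hb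
    · rw [hfr, hbr]
      exact ha

theorem box_of_principal {L : Type u} [Field L] {ℓ : ℕ} (hℓ : ℓ.Prime) (hℓ0 : (ℓ : L) ≠ 0)
    (V : ValuationSubring L) (a : IsLocalRing.ResidueField V) (ha : ∀ c, c ^ ℓ ≠ a)
    (π : V) (hπ0 : π ≠ 0) (hπ : IsLocalRing.maximalIdeal V = Ideal.span {π}) : Box ℓ V := by
  have hfact : Fact ℓ.Prime := ⟨hℓ⟩
  obtain ⟨x, rfl⟩ := IsLocalRing.residue_surjective a
  have hx0 : IsLocalRing.residue V x ≠ 0 := fun h => by
    apply ha 0
    rw [h, zero_pow hℓ.ne_zero]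
  have hxu : IsUnit x := (IsLocalRing.residue_ne_zero_iff_isUnit x).1 hx0
  have hx1 : V.valuation (x : L) = 1 := (V.valuation_eq_one_iff x).1 hxu
  have hπL : (π : L) ≠ 0 := fun h => hπ0 (Subtype.ext h)
  have hπm : V.valuation (π : L) < 1 := by
    rw [← ValuationSubring.valuation_lt_one_iff, hπ]
    exact Ideal.mem_span_singleton_self π
  have hle : ∀ c : L, V.valuation c < 1 → V.valuation c ≤ V.valuation (π : L) := by
    intro c hc
    have hcV : c ∈ V := (V.valuation_le_one_iff _).1 hc.le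
    have h1 : (⟨c, hcV⟩ : V) ∈ IsLocalRing.maximalIdeal V :=
      (ValuationSubring.valuation_lt_one_iff V ⟨c, hcV⟩).2 hc
    rw [hπ, Ideal.mem_span_singleton'] at h1
    obtain ⟨t, ht⟩ := h1
    have h2 : c = (t : L) * (π : L) := (congrArg Subtype.val ht).symm
    rw [h2, map_mul]
    exact mul_le_of_le_one_left' ((V.valuation_le_one_iff _).2 t.2)
  have hπne : ∀ c : L, V.valuation (π : L) ≠ V.valuation c ^ ℓ := by
    intro c hc
    have hc1 : V.valuation c < 1 := by
      by_contra h
      have := one_le_pow₀ (n := ℓ) (not_lt.1 h)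
      rw [← hc] at this
      exact absurd hπm (not_lt.2 this)
    have h0 : 0 < V.valuation (π : L) := (Valuation.pos_iff _).2 hπL
    have h1 : V.valuation c ^ ℓ ≤ V.valuation (π : L) ^ ℓ := by
      gcongr
      exact hle c hc1
    have h2 : V.valuation (π : L) ^ ℓ < V.valuation (π : L) :=
      pow_lt_self_of_lt_one₀ h0 hπm hℓ.one_lt
    exact absurd hc (h1.trans_lt h2).ne'
  refine ⟨x, π, x.2, hπL, fun W hVW hWV => ?_, fun f b hf hb => ?_⟩
  · refine le_antisymm ((W.valuation_le_one_iff _).2 (hVW π.2)) (not_lt.1 fun h => ?_)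
    apply hWV
    intro s hs
    by_contra hsV
    have hs0 : s ≠ 0 := by
      rintro rfl
      exact hsV V.zero_mem
    have h1 : V.valuation s⁻¹ < 1 := by
      rw [map_inv₀]
      refine inv_lt_one_of_one_lt₀ ?_
      by_contra hcon
      exact hsV ((V.valuation_le_one_iff _).1 (not_lt.1 hcon))
    have hsV' : s⁻¹ ∈ V := (V.valuation_le_one_iff _).1 h1.le
    have h2 : (⟨s⁻¹, hsV'⟩ : V) ∈ IsLocalRing.maximalIdeal V :=
      (ValuationSubring.valuation_lt_one_iff V ⟨s⁻¹, hsV'⟩).2 h1
    rw [hπ, Ideal.mem_span_singleton'] at h2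
    obtain ⟨t, ht⟩ := h2
    have h3 : s⁻¹ = (t : L) * (π : L) := (congrArg Subtype.val ht).symm
    have h4 : W.valuation s⁻¹ < 1 := by
      rw [h3, map_mul]
      exact (mul_le_of_le_one_left' ((W.valuation_le_one_iff _).2 (hVW t.2))).trans_lt h
    have h5 : W.valuation s ≤ 1 := (W.valuation_le_one_iff _).2 hs
    rw [map_inv₀] at h4
    have h6 : 1 < W.valuation s := by
      have h7 : 0 < W.valuation s := (Valuation.pos_iff _).2 hs0
      exact (inv_lt_one₀ h7).1 h4
    exact absurd h6 (not_lt.2 h5)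
  · have hvb : V.valuation b = V.valuation (π : L) := by
      have h4 : b = (b - π) + π := by ring
      rw [h4, Valuation.map_add_eq_of_lt_right _ hb]
    refine not_mem_NS V hℓ0 b f x (fun c => by rw [hvb]; exact hπne c) hx1 (fun c hc => ?_) hf
    have hcV : c ∈ V := by
      have hc1 : V.valuation (c ^ ℓ) ≤ 1 := by
        have h4 : c ^ ℓ = (x : L) - ((x : L) - c ^ ℓ) := by ring
        rw [h4]
        exact (Valuation.map_sub _ _ _).trans (max_le hx1.le hc.le)
      rw [← ValuationSubring.valuation_le_one_iff]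
      rw [map_pow] at hc1
      exact (pow_le_one_iff_of_nonneg zero_le hℓ.ne_zero).1 hc1
    apply ha (IsLocalRing.residue V ⟨c, hcV⟩)
    rw [← map_pow, ← sub_eq_zero, ← map_sub, IsLocalRing.residue_eq_zero_iff,
      ValuationSubring.valuation_lt_one_iff]
    show V.valuation (c ^ ℓ - (x : L)) < 1
    rw [Valuation.map_sub_swap]
    exact hc

/-- Pairwise incomparable valuation rings with boxes. -/
theorem finite_box {L : Type u} [Field L] [CompatibleRing L] (hL : NIP L) {ℓ : ℕ}
    (hℓ : ℓ.Prime) (S : Set (ValuationSubring L)) (hS : ∀ V ∈ S, ∀ W ∈ S, V ≤ W → V = W) :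
    {V ∈ S | V.valuation (ℓ : L) = 1 ∧ Box ℓ V}.Finite := by
  have : NeZero ℓ := ⟨hℓ.ne_zero⟩
  by_contra hinf
  obtain ⟨n, hn⟩ := hL.exists_not_shatE ℓ
  obtain ⟨T, hTs, hcard⟩ := Set.Infinite.exists_subset_card_eq hinf n
  let e : Fin n ≃ T := (Fintype.equivFinOfCardEq (by rw [Fintype.card_coe, hcard])).symm
  have hmem : ∀ i, (e i : ValuationSubring L) ∈
      {V ∈ S | V.valuation (ℓ : L) = 1 ∧ Box ℓ V} := fun i => hTs (e i).2
  have hinc : ∀ i j, i ≠ j → ¬ (e i : ValuationSubring L) ≤ (e j : ValuationSubring L) := by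
    intro i j hij h
    exact hij (e.injective (Subtype.ext (hS _ (hmem i).1 _ (hmem j).1 h)))
  choose x y hx hy0 hy hbox using fun i => (hmem i).2.2
  refine hn (shatE_of_inc hℓ n (fun i => (e i : ValuationSubring L)) hinc
    (fun i => (hmem i).2.1) x y hx hy0 (fun i j hij => ?_) hbox)
  refine hy i _ le_sup_left fun h => ?_
  exact hinc j i (Ne.symm hij) (le_sup_right.trans h)

end Pool.Agent.NNI
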